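import Pool.Agent.K6.H94.FG.Fin

/-!
# Equivariant matrices and the arrays of bounded level

On the arrays of level at most `w` the identity is a combination of products `A B` of equivariant
matrices which factor through the arrays with `N` factors.
-/

set_option autoImplicit false
set_option linter.unusedSectionVars false

namespace Pool.Agent.K6.H94.FG

open Matrix Pool.Agent.N996.BP ComplexConjugate
open scoped ComplexOrder

variable {ι : Type} [Fintype ι] [DecidableEq ι] (H : HData ι)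

/-- The equivariant matrices. -/
def Com (κ l : Type) [Fintype κ] [DecidableEq κ] [Fintype l] [DecidableEq l] :
    Submodule ℂ (Matrix (κ → ι) (l → ι) ℂ) where
  carrier := {A | ∀ g ∈ GG H, kp κ g * A = A * kp l g}
  add_mem' {a b} ha hb g hg := by rw [Matrix.mul_add, Matrix.add_mul, ha g hg, hb g hg]
  zero_mem' g _ := by rw [Matrix.mul_zero, Matrix.zero_mul]
  smul_mem' c a ha g hg := by rw [Matrix.mul_smul, Matrix.smul_mul, ha g hg]

variable {H}
variable {κ l m : Type} [Fintype κ] [DecidableEq κ] [Fintype l] [DecidableEq l] [Fintype m]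
  [DecidableEq m]

lemma Com_mul {A : Matrix (κ → ι) (l → ι) ℂ} {B : Matrix (l → ι) (m → ι) ℂ} (hA : A ∈ Com H κ l)
    (hB : B ∈ Com H l m) : A * B ∈ Com H κ m := by
  intro g hg
  rw [← Matrix.mul_assoc, hA g hg, Matrix.mul_assoc, hB g hg, Matrix.mul_assoc]

/-- The scalar product. -/
noncomputable def Zm (H : HData ι) : Matrix ι ι ℂ := (cR H.D.M)ᴴ * cR H.D.M

lemma Zm_H : (Zm H)ᴴ = Zm H := by
  rw [Zm, Matrix.conjTranspose_mul, Matrix.conjTranspose_conjTranspose]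

/-- The adjoint of an element of the group. -/
lemma GG_star {g : Matrix ι ι ℂ} (hg : g ∈ GG H) : ∃ y ∈ GG H, Zm H * g = yᴴ * Zm H := by
  obtain ⟨Z, hZ⟩ : ∃ Z, Z = cQ H.Qr * H.l Complex.I := ⟨_, rfl⟩
  have hZS : Z = cR H.D.S := by rw [hZ, ← cR_Q, ← cR_C, ← cR_mul, H.D.S_eq]
  have hZH : Zᴴ = Z := by rw [hZS, cR_conjTranspose, H.D.S_tr]
  have hZm : Zm H = Z := by
    rw [Zm, hZS, cR_conjTranspose, ← cR_mul, RData.S]
  rw [hZm]
  have hgen : ∀ g ∈ gens H, ∃ y ∈ GG H, Z * g = yᴴ * Z := by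
    intro g hg
    obtain ⟨h, hh, hhg, hgQ⟩ := gens_inv H (gens_conj H hg)
    refine ⟨H.l Complex.I⁻¹ * h * H.l Complex.I, Submonoid.mul_mem _
      (Submonoid.mul_mem _ (Submonoid.subset_closure (l_mem_gens H (inv_ne_zero Complex.I_ne_zero)))
        (Submonoid.subset_closure hh))
          (Submonoid.subset_closure (l_mem_gens H Complex.I_ne_zero)), ?_⟩
    have h1 : gᴴ = (g.map conj)ᵀ := by
      ext i j; simp [Matrix.conjTranspose_apply]
    have h2 : Z * (H.l Complex.I⁻¹ * h * H.l Complex.I) = gᴴ * Z := by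
      calc Z * (H.l Complex.I⁻¹ * h * H.l Complex.I) =
          cQ H.Qr * (H.l Complex.I * H.l Complex.I⁻¹) * h * H.l Complex.I := by
            rw [hZ]; simp only [Matrix.mul_assoc]
        _ = (cQ H.Qr * h) * H.l Complex.I := by
            rw [H.l_inv Complex.I_ne_zero, Matrix.mul_one]
        _ = _ := by rw [← hgQ, h1, hZ, Matrix.mul_assoc]
    have h3 : (Z * (H.l Complex.I⁻¹ * h * H.l Complex.I))ᴴ = (gᴴ * Z)ᴴ := by rw [h2]
    rw [Matrix.conjTranspose_mul Z, Matrix.conjTranspose_mul gᴴ, hZH,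
      Matrix.conjTranspose_conjTranspose] at h3
    exact h3.symm
  induction hg using Submonoid.closure_induction with
  | mem x hx => exact hgen x hx
  | one => exact ⟨1, Submonoid.one_mem _, by simp⟩
  | mul x y _ _ hx hy =>
    obtain ⟨a, ha, ha'⟩ := hx
    obtain ⟨b, hb, hb'⟩ := hy
    refine ⟨b * a, Submonoid.mul_mem _ hb ha, ?_⟩
    rw [← Matrix.mul_assoc, ha', Matrix.mul_assoc, hb', Matrix.conjTranspose_mul,
      Matrix.mul_assoc]

section Adj

variable (H κ)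

/-- The square root of the scalar product on arrays. -/
noncomputable def Mk : Matrix (κ → ι) (κ → ι) ℂ := kp κ (cR H.D.M)

/-- Its inverse. -/
noncomputable def Mki : Matrix (κ → ι) (κ → ι) ℂ := kp κ (cR H.D.Mi)

lemma Mki_Mk : Mki H κ * Mk H κ = 1 := by
  rw [Mki, Mk, ← kp_mul, ← cR_mul, H.D.hM', cR_one, kp_one]

lemma Mk_Mki : Mk H κ * Mki H κ = 1 := mul_eq_one_comm.1 (Mki_Mk H κ)

/-- The scalar product on arrays. -/
noncomputable def Zk : Matrix (κ → ι) (κ → ι) ℂ := (Mk H κ)ᴴ * Mk H κ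

/-- Its inverse. -/
noncomputable def Zki : Matrix (κ → ι) (κ → ι) ℂ := Mki H κ * (Mki H κ)ᴴ

lemma Zk_eq : Zk H κ = kp κ (Zm H) := by
  rw [Zk, Mk, Zm, kp_mul, ← kp_conjTranspose]

lemma Zk_H : (Zk H κ)ᴴ = Zk H κ := by
  rw [Zk, Matrix.conjTranspose_mul, Matrix.conjTranspose_conjTranspose]

lemma Zki_H : (Zki H κ)ᴴ = Zki H κ := by
  rw [Zki, Matrix.conjTranspose_mul, Matrix.conjTranspose_conjTranspose]

lemma Zki_Zk : Zki H κ * Zk H κ = 1 := by
  have h1 : (Mki H κ)ᴴ * (Mk H κ)ᴴ = 1 := by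
    rw [← Matrix.conjTranspose_mul, Mk_Mki, Matrix.conjTranspose_one]
  calc Zki H κ * Zk H κ = Mki H κ * ((Mki H κ)ᴴ * (Mk H κ)ᴴ) * Mk H κ := by
        rw [Zki, Zk]; simp only [Matrix.mul_assoc]
    _ = 1 := by rw [h1, Matrix.mul_one, Mki_Mk]

lemma Zk_Zki : Zk H κ * Zki H κ = 1 := mul_eq_one_comm.1 (Zki_Zk H κ)

variable {κ}

/-- The adjoint matrix. -/
noncomputable def ad (A : Matrix (κ → ι) (l → ι) ℂ) : Matrix (l → ι) (κ → ι) ℂ :=
  Zki H l * Aᴴ * Zk H κ

variable {H}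

/-- The scalar product. -/
noncomputable def ip (H : HData ι) (x y : (κ → ι) → ℂ) : ℂ :=
  star (Mk H κ *ᵥ x) ⬝ᵥ (Mk H κ *ᵥ y)

lemma ip_eq (x y : (κ → ι) → ℂ) : ip H x y = star x ⬝ᵥ (Zk H κ *ᵥ y) := by
  rw [ip, Zk, Matrix.star_mulVec, ← Matrix.dotProduct_mulVec, Matrix.mulVec_mulVec]

lemma ip_ad (A : Matrix (κ → ι) (l → ι) ℂ) (x : (κ → ι) → ℂ) (y : (l → ι) → ℂ) :
    ip H x (A *ᵥ y) = ip H (ad H A *ᵥ x) y := by
  rw [ip_eq, ip_eq, Matrix.star_mulVec, ← Matrix.dotProduct_mulVec, Matrix.mulVec_mulVec,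
    Matrix.mulVec_mulVec]
  congr 2
  rw [ad, Matrix.conjTranspose_mul, Matrix.conjTranspose_mul, Matrix.conjTranspose_conjTranspose,
    Zk_H, Zki_H, Matrix.mul_assoc, Matrix.mul_assoc, Zki_Zk, Matrix.mul_one]

lemma ip_pos {x : (κ → ι) → ℂ} (h : ip H x x = 0) : x = 0 := by
  have h1 : Mk H κ *ᵥ x = 0 := dotProduct_star_self_eq_zero.1 h
  have h2 : Mki H κ *ᵥ (Mk H κ *ᵥ x) = 0 := by rw [h1, Matrix.mulVec_zero]
  rwa [Matrix.mulVec_mulVec, Mki_Mk, Matrix.one_mulVec] at h2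

lemma ip_nonneg (x : (κ → ι) → ℂ) : ∃ r : ℝ, 0 ≤ r ∧ ip H x x = r := by
  refine ⟨∑ i, Complex.normSq ((Mk H κ *ᵥ x) i), Finset.sum_nonneg fun i _ =>
    Complex.normSq_nonneg _, ?_⟩
  rw [ip, dotProduct, Complex.ofReal_sum]
  refine Finset.sum_congr rfl fun i _ => ?_
  rw [Pi.star_apply, Complex.normSq_eq_conj_mul_self]
  rfl

lemma ip_add (x y z : (κ → ι) → ℂ) : ip H x (y + z) = ip H x y + ip H x z := by
  rw [ip, Matrix.mulVec_add, dotProduct_add]
  rfl

lemma ip_smul (c : ℂ) (x y : (κ → ι) → ℂ) : ip H x (c • y) = c * ip H x y := by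
  rw [ip, Matrix.mulVec_smul, dotProduct_smul, smul_eq_mul]
  rfl

lemma ip_zero (x : (κ → ι) → ℂ) : ip H x 0 = 0 := by
  rw [ip, Matrix.mulVec_zero, dotProduct_zero]

lemma ip_sum {α : Type*} (s : Finset α) (x : (κ → ι) → ℂ) (f : α → (κ → ι) → ℂ) :
    ip H x (∑ a ∈ s, f a) = ∑ a ∈ s, ip H x (f a) := by
  classical
  induction s using Finset.induction_on with
  | empty => rw [Finset.sum_empty, Finset.sum_empty, ip_zero]
  | insert a s ha ih => rw [Finset.sum_insert ha, Finset.sum_insert ha, ip_add, ih]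

lemma kp_star {g : Matrix ι ι ℂ} (hg : g ∈ GG H) : ∃ y ∈ GG H, ∀ (κ : Type) [Fintype κ]
    [DecidableEq κ], Zk H κ * kp κ g = (kp κ y)ᴴ * Zk H κ := by
  obtain ⟨y, hy, h⟩ := GG_star hg
  refine ⟨y, hy, fun κ _ _ => ?_⟩
  rw [Zk_eq, ← kp_mul, h, kp_mul, kp_conjTranspose]

lemma ad_mem {A : Matrix (κ → ι) (l → ι) ℂ} (hA : A ∈ Com H κ l) : ad H A ∈ Com H l κ := by
  intro g hg
  obtain ⟨y, hy, h⟩ := kp_star hg
  have h1 : kp l g * Zki H l = Zki H l * (kp l y)ᴴ := by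
    calc kp l g * Zki H l = Zki H l * (Zk H l * kp l g) * Zki H l := by
          rw [← Matrix.mul_assoc (Zki H l), Zki_Zk, Matrix.one_mul]
      _ = _ := by rw [h l, Matrix.mul_assoc, Matrix.mul_assoc, Zk_Zki, Matrix.mul_one]
  have h2 := congrArg Matrix.conjTranspose (hA y hy)
  rw [Matrix.conjTranspose_mul, Matrix.conjTranspose_mul] at h2
  calc kp l g * ad H A = (kp l g * Zki H l) * Aᴴ * Zk H κ := by
        rw [ad]; simp only [Matrix.mul_assoc]
    _ = Zki H l * ((kp l y)ᴴ * Aᴴ) * Zk H κ := by rw [h1]; simp only [Matrix.mul_assoc]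
    _ = Zki H l * Aᴴ * ((kp κ y)ᴴ * Zk H κ) := by rw [← h2]; simp only [Matrix.mul_assoc]
    _ = _ := by rw [← h κ, ad]; simp only [Matrix.mul_assoc]

end Adj

section Proj

variable (H κ l)

/-- The arrays which are killed by all equivariant maps to the arrays with factors `l`. -/
def Kl : Submodule ℂ ((κ → ι) → ℂ) where
  carrier := {x | ∀ B ∈ Com H l κ, B *ᵥ x = 0}
  add_mem' {a b} ha hb B hB := by rw [Matrix.mulVec_add, ha B hB, hb B hB, add_zero]
  zero_mem' B _ := Matrix.mulVec_zero _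
  smul_mem' c a ha B hB := by rw [Matrix.mulVec_smul, ha B hB, smul_zero]

/-- The orthogonal complement. -/
def Ko : Submodule ℂ ((κ → ι) → ℂ) where
  carrier := {y | ∀ x ∈ Kl H κ l, ip H x y = 0}
  add_mem' {a b} ha hb x hx := by rw [ip_add, ha x hx, hb x hx, add_zero]
  zero_mem' x _ := ip_zero x
  smul_mem' c a ha x hx := by rw [ip_smul, ha x hx, mul_zero]

variable {H κ l}

lemma inter_zero {x : (κ → ι) → ℂ} (h : x ∈ Kl H κ l) (h' : x ∈ Ko H κ l) : x = 0 :=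
  ip_pos (h' x h)

lemma exists_dec (v : (κ → ι) → ℂ) : ∃ a ∈ Kl H κ l, ∃ b ∈ Ko H κ l, a + b = v := by
  obtain ⟨u, hu, h⟩ := exists_orth (Mk H κ) (Kl H κ l) v
  exact ⟨u, hu, v - u, h, by abel⟩

lemma isCompl : IsCompl (Kl H κ l) (Ko H κ l) := by
  rw [isCompl_iff]
  constructor
  · rw [Submodule.disjoint_def]
    intro x hx hx'
    exact inter_zero hx hx'
  · rw [codisjoint_iff, eq_top_iff]
    intro v _
    obtain ⟨a, ha, b, hb, rfl⟩ := exists_dec (H := H) (l := l) v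
    exact Submodule.add_mem_sup ha hb

/-- Images of equivariant maps from the arrays with factors `l`. -/
lemma img_mem {A : Matrix (κ → ι) (l → ι) ℂ} (hA : A ∈ Com H κ l) (y : (l → ι) → ℂ) :
    A *ᵥ y ∈ Ko H κ l := by
  intro x hx
  rw [ip_ad, hx _ (ad_mem hA), ip, Matrix.mulVec_zero, star_zero, zero_dotProduct]

lemma Kl_stable {A : Matrix (κ → ι) (κ → ι) ℂ} (hA : A ∈ Com H κ κ) {x : (κ → ι) → ℂ}
    (hx : x ∈ Kl H κ l) : A *ᵥ x ∈ Kl H κ l := by
  intro B hB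
  rw [Matrix.mulVec_mulVec]
  exact hx _ (Com_mul hB hA)

lemma Ko_stable {A : Matrix (κ → ι) (κ → ι) ℂ} (hA : A ∈ Com H κ κ) {x : (κ → ι) → ℂ}
    (hx : x ∈ Ko H κ l) : A *ᵥ x ∈ Ko H κ l := by
  intro y hy
  rw [ip_ad]
  exact hx _ (Kl_stable (ad_mem hA) hy)

/-- The orthogonal projection. -/
lemma exists_P : ∃ P : Matrix (κ → ι) (κ → ι) ℂ, (∀ x ∈ Kl H κ l, P *ᵥ x = x) ∧
    (∀ x ∈ Ko H κ l, P *ᵥ x = 0) ∧ P ∈ GA H κ := by
  let π : ((κ → ι) → ℂ) →ₗ[ℂ] ((κ → ι) → ℂ) :=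
    (Kl H κ l).subtype ∘ₗ (Kl H κ l).projectionOnto (Ko H κ l) isCompl
  have h1 : ∀ x ∈ Kl H κ l, π x = x := fun x hx => by
    change ((Kl H κ l).projectionOnto (Ko H κ l) isCompl x : (κ → ι) → ℂ) = x
    have := Submodule.projectionOnto_apply_left (isCompl (H := H) (κ := κ) (l := l)) ⟨x, hx⟩
    rw [this]
  have h2 : ∀ x ∈ Ko H κ l, π x = 0 := fun x hx => by
    change ((Kl H κ l).projectionOnto (Ko H κ l) isCompl x : (κ → ι) → ℂ) = 0
    rw [(Submodule.projectionOnto_apply_eq_zero_iff isCompl).2 hx]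
    rfl
  have h3 : ∀ x, LinearMap.toMatrix' π *ᵥ x = π x := fun x => by
    rw [← Matrix.toLin'_apply, Matrix.toLin'_toMatrix']
  refine ⟨LinearMap.toMatrix' π, fun x hx => by rw [h3, h1 x hx], fun x hx => by rw [h3, h2 x hx],
    mem_of_commutes (GA H κ) (kp κ (cR H.D.M)) (kp κ (cR H.D.Mi)) (Mki_Mk H κ)
      (fun x hx => GA_star hx) _ fun A hA => ?_⟩
  have hAC : A ∈ Com H κ κ := fun g hg => (hA _ (kp_mem_GA hg)).symm
  apply Matrix.toLin'.injective
  apply LinearMap.ext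
  intro v
  rw [Matrix.toLin'_apply, Matrix.toLin'_apply, ← Matrix.mulVec_mulVec, ← Matrix.mulVec_mulVec,
    h3, h3]
  obtain ⟨a, ha, b, hb, rfl⟩ := exists_dec (H := H) (l := l) v
  rw [map_add, h1 a ha, h2 b hb, Matrix.mulVec_add, map_add, h1 _ (Kl_stable hAC ha),
    h2 _ (Ko_stable hAC hb), add_zero, add_zero]

end Proj

section Pad

variable (H) (N : ℕ) (δ : Type) [Fintype δ] [DecidableEq δ]

lemma uni_fix {g : Matrix ι ι ℂ} (hg : g ∈ GG H) :
    kp δ g *ᵥ uni ℂ H.D.o δ = uni ℂ H.D.o δ := by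
  have h1 : uni ℂ H.D.o δ = ca (uni ℚ H.D.o δ) := by
    funext i
    simp [uni, ca, apply_ite]
  rw [h1]
  exact GG_fix H (uni_BB δ) hg

/-- The embedding of the arrays with fewer factors. -/
noncomputable def Jm : Matrix (Fin N ⊕ δ → ι) (Fin N → ι) ℂ :=
  Matrix.of fun i j => if i ∘ Sum.inl = j then uni ℂ H.D.o δ (i ∘ Sum.inr) else 0

lemma Jm_mulVec (y : (Fin N → ι) → ℂ) : Jm H N δ *ᵥ y = tens y (uni ℂ H.D.o δ) := by
  funext i
  rw [Matrix.mulVec, dotProduct, Finset.sum_eq_single (i ∘ Sum.inl)]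
  · rw [Jm, Matrix.of_apply, if_pos rfl, tens, mul_comm]
  · intro j _ hj
    rw [Jm, Matrix.of_apply, if_neg (Ne.symm hj), zero_mul]
  · intro h; exact absurd (Finset.mem_univ _) h

lemma Jm_mem : Jm H N δ ∈ Com H (Fin N ⊕ δ) (Fin N) := by
  intro g hg
  apply Matrix.toLin'.injective
  apply LinearMap.ext
  intro v
  rw [Matrix.toLin'_apply, Matrix.toLin'_apply, ← Matrix.mulVec_mulVec, ← Matrix.mulVec_mulVec,
    Jm_mulVec, Jm_mulVec, kp_tens, uni_fix H δ hg]

end Pad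

/-- The combinations of products of equivariant maps which factor through the arrays with factors
`l`. -/
def Il (H : HData ι) (κ l : Type) [Fintype κ] [DecidableEq κ] [Fintype l] [DecidableEq l] :
    Submodule ℂ (Matrix (κ → ι) (κ → ι) ℂ) :=
  Submodule.span ℂ {z | ∃ A ∈ Com H κ l, ∃ B ∈ Com H l κ, z = A * B}

lemma Il_img {z : Matrix (κ → ι) (κ → ι) ℂ} (hz : z ∈ Il H κ l) (y : (κ → ι) → ℂ) :
    z *ᵥ y ∈ Ko H κ l := by
  induction hz using Submodule.span_induction with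
  | mem x hx =>
    obtain ⟨A, hA, B, hB, rfl⟩ := hx
    rw [← Matrix.mulVec_mulVec]
    exact img_mem hA _
  | zero => rw [Matrix.zero_mulVec]; exact Submodule.zero_mem _
  | add a b _ _ ha hb => rw [Matrix.add_mulVec]; exact Submodule.add_mem _ ha hb
  | smul c a _ ha => rw [Matrix.smul_mulVec]; exact Submodule.smul_mem _ _ ha

lemma Il_mul {p z : Matrix (κ → ι) (κ → ι) ℂ} (hp : p ∈ Com H κ κ) (hz : z ∈ Il H κ l) :
    p * z ∈ Il H κ l := by
  induction hz using Submodule.span_induction with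
  | mem x hx =>
    obtain ⟨A, hA, B, hB, rfl⟩ := hx
    exact Submodule.subset_span ⟨p * A, Com_mul hp hA, B, hB, (Matrix.mul_assoc _ _ _).symm⟩
  | zero => rw [Matrix.mul_zero]; exact Submodule.zero_mem _
  | add a b _ _ ha hb => rw [Matrix.mul_add]; exact Submodule.add_mem _ ha hb
  | smul c a _ ha => rw [Matrix.mul_smul]; exact Submodule.smul_mem _ _ ha

lemma Il_le : Il H κ l ≤ Com H κ κ := by
  rw [Il, Submodule.span_le]
  rintro _ ⟨A, hA, B, hB, rfl⟩
  exact Com_mul hA hB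

/-- The unit of the ideal. -/
lemma exists_e : ∃ e ∈ Il H κ l, ∀ y ∈ Ko H κ l, e *ᵥ y = y := by
  classical
  let b := Module.finBasis ℂ (Com H l κ)
  let p : Matrix (κ → ι) (κ → ι) ℂ := ∑ i,
    ad H ((b i : Com H l κ) : Matrix (l → ι) (κ → ι) ℂ) *
      ((b i : Com H l κ) : Matrix (l → ι) (κ → ι) ℂ)
  have hp : p ∈ Il H κ l := Submodule.sum_mem _ fun i _ => Submodule.subset_span
    ⟨_, ad_mem (b i).2, _, (b i).2, rfl⟩
  have hker : ∀ x, p *ᵥ x = 0 → x ∈ Kl H κ l := by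
    intro x hx
    have h1 : ∑ i, ip H (((b i : Com H l κ) : Matrix (l → ι) (κ → ι) ℂ) *ᵥ x)
        (((b i : Com H l κ) : Matrix (l → ι) (κ → ι) ℂ) *ᵥ x) = 0 := by
      have h2 : ip H x (p *ᵥ x) = 0 := by rw [hx, ip_zero]
      rw [Matrix.sum_mulVec, ip_sum] at h2
      rw [← h2]
      refine Finset.sum_congr rfl fun i _ => ?_
      have h3 : ad H (ad H ((b i : Com H l κ) : Matrix (l → ι) (κ → ι) ℂ)) =
          ((b i : Com H l κ) : Matrix (l → ι) (κ → ι) ℂ) := by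
        rw [ad, ad, Matrix.conjTranspose_mul, Matrix.conjTranspose_mul,
          Matrix.conjTranspose_conjTranspose, Zk_H, Zki_H]
        calc Zki H l * (Zk H l * (((b i : Com H l κ) : Matrix (l → ι) (κ → ι) ℂ) * Zki H κ)) *
              Zk H κ = (Zki H l * Zk H l) * ((b i : Com H l κ) : Matrix (l → ι) (κ → ι) ℂ) *
                (Zki H κ * Zk H κ) := by simp only [Matrix.mul_assoc]
          _ = _ := by rw [Zki_Zk, Zki_Zk, Matrix.one_mul, Matrix.mul_one]
      rw [← Matrix.mulVec_mulVec, ip_ad (ad H ((b i : Com H l κ) : Matrix (l → ι) (κ → ι) ℂ)), h3]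
    choose r hr0 hr using fun i => ip_nonneg (H := H)
      (((b i : Com H l κ) : Matrix (l → ι) (κ → ι) ℂ) *ᵥ x)
    have h2 : ∑ i, r i = 0 := by
      have h3 : ((∑ i, r i : ℝ) : ℂ) = 0 := by
        rw [Complex.ofReal_sum, ← h1]
        exact Finset.sum_congr rfl fun i _ => (hr i).symm
      exact_mod_cast h3
    have h3 := (Finset.sum_eq_zero_iff_of_nonneg fun i _ => hr0 i).1 h2
    have h4 : ∀ i, ((b i : Com H l κ) : Matrix (l → ι) (κ → ι) ℂ) *ᵥ x = 0 := fun i =>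
      ip_pos (by rw [hr i, h3 i (Finset.mem_univ i)]; rfl)
    intro B hB
    have h5 : B = ∑ i, b.repr ⟨B, hB⟩ i • ((b i : Com H l κ) : Matrix (l → ι) (κ → ι) ℂ) := by
      have h6 := congrArg Subtype.val (b.sum_repr ⟨B, hB⟩)
      rw [AddSubmonoidClass.coe_finsetSum] at h6
      exact h6.symm
    rw [h5, Matrix.sum_mulVec]
    refine Finset.sum_eq_zero fun i _ => ?_
    rw [Matrix.smul_mulVec, h4 i, smul_zero]
  let L : Il H κ l →ₗ[ℂ] Il H κ l :=
    { toFun := fun z => ⟨p * z, Il_mul (Il_le hp) z.2⟩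
      map_add' := fun x y => Subtype.ext (Matrix.mul_add _ _ _)
      map_smul' := fun c x => Subtype.ext (Matrix.mul_smul _ _ _) }
  have hL : Function.Injective L := by
    rw [← LinearMap.ker_eq_bot, LinearMap.ker_eq_bot']
    intro z hz
    have h1 : p * (z : Matrix (κ → ι) (κ → ι) ℂ) = 0 := congrArg Subtype.val hz
    apply Subtype.ext
    apply Matrix.toLin'.injective
    apply LinearMap.ext
    intro v
    rw [Matrix.toLin'_apply]
    have h2 : p *ᵥ ((z : Matrix (κ → ι) (κ → ι) ℂ) *ᵥ v) = 0 := by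
      rw [Matrix.mulVec_mulVec, h1, Matrix.zero_mulVec]
    rw [inter_zero (hker _ h2) (Il_img z.2 v)]
    simp
  obtain ⟨⟨e, he⟩, hpe⟩ := LinearMap.surjective_of_injective hL ⟨p, hp⟩
  have hpe' : p * e = p := congrArg Subtype.val hpe
  refine ⟨e, he, fun y hy => ?_⟩
  have h1 : p *ᵥ (e *ᵥ y - y) = 0 := by
    rw [Matrix.mulVec_sub, Matrix.mulVec_mulVec, hpe', sub_self]
  exact sub_eq_zero.1 (inter_zero (hker _ h1) (Submodule.sub_mem _ (Il_img he y) hy))

variable (H)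

/-- **The identity of the arrays of bounded level factors through arrays with `N` factors.** -/
theorem exists_id (w : ℕ) : ∃ N₀ : ℕ, ∀ N, N₀ ≤ N → ∀ (δ : Type) [Fintype δ] [DecidableEq δ],
    ∃ e ∈ Il H (Fin N ⊕ δ) (Fin N), ∀ v ∈ Lv H w (Fin N ⊕ δ), e *ᵥ v = v := by
  obtain ⟨N₀, h⟩ := exists_N H w
  refine ⟨N₀, fun N hN δ _ _ => ?_⟩
  obtain ⟨P, hP1, hP2, hPG⟩ := exists_P (H := H) (κ := Fin N ⊕ δ) (l := Fin N)
  have hPs : P ∈ Subalgebra.toSubmodule (GA H (Fin N ⊕ δ)) := hPG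
  rw [GA_eq_span, Set.image_eq_range] at hPs
  obtain ⟨c, hc⟩ := Finsupp.mem_span_range_iff_exists_finsupp.1 hPs
  have hPv : ∀ v i, (P *ᵥ v) i = c.sum fun γ a => a * (kp (Fin N ⊕ δ) (γ : Matrix ι ι ℂ) *ᵥ v) i := by
    intro v i
    rw [← hc, Finsupp.sum, Matrix.sum_mulVec, Finset.sum_apply, Finsupp.sum]
    refine Finset.sum_congr rfl fun γ _ => ?_
    rw [Matrix.smul_mulVec, Pi.smul_apply, smul_eq_mul]
  -- the combination is zero on the arrays with `N` factors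
  have hN0 : ∀ (y : (Fin N → ι) → ℂ) (i : Fin N → ι),
      (c.sum fun γ a => a * (kp (Fin N) (γ : Matrix ι ι ℂ) *ᵥ y) i) = 0 := by
    intro y i
    have h1 : P *ᵥ (tens y (uni ℂ H.D.o δ)) = 0 := by
      rw [← Jm_mulVec]
      exact hP2 _ (img_mem (Jm_mem H N δ) y)
    have h2 := congrFun h1 (Sum.elim i fun _ => H.D.o)
    rw [hPv, Pi.zero_apply] at h2
    rw [← h2]
    refine Finset.sum_congr rfl fun γ _ => ?_
    change c γ * _ = c γ * _
    rw [kp_tens, uni_fix H δ γ.2, tens_elim]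
    have h3 : uni ℂ H.D.o δ (fun _ => H.D.o) = 1 := by simp [uni]
    rw [h3, mul_one]
  -- the functional
  have hE : ∀ F ∈ Ent H N, (c.sum fun γ a => a * F γ) = 0 := by
    intro F hF
    induction hF using Submodule.span_induction with
    | mem F hF =>
      obtain ⟨i, j, rfl⟩ := hF
      have h1 := hN0 (Pi.single j 1) i
      rw [← h1]
      refine Finset.sum_congr rfl fun γ _ => ?_
      change c γ * _ = c γ * _
      rw [Matrix.mulVec_single_one]
      rfl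
    | zero => simp
    | add F G _ _ hF hG =>
      have h1 : (c.sum fun γ a => a * (F + G) γ) =
          (c.sum fun γ a => a * F γ) + c.sum fun γ a => a * G γ := by
        rw [← Finsupp.sum_add]
        refine Finset.sum_congr rfl fun γ _ => ?_
        change c γ * (F γ + G γ) = _
        ring
      rw [h1, hF, hG, add_zero]
    | smul r F _ hF =>
      have h1 : (c.sum fun γ a => a * (r • F) γ) = r * c.sum fun γ a => a * F γ := by
        rw [Finsupp.mul_sum]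
        refine Finset.sum_congr rfl fun γ _ => ?_
        change c γ * (r * F γ) = _
        ring
      rw [h1, hF, mul_zero]
  obtain ⟨e, he, hey⟩ := exists_e (H := H) (κ := Fin N ⊕ δ) (l := Fin N)
  refine ⟨e, he, fun v hv => hey v ?_⟩
  have hPv0 : P *ᵥ v = 0 := by
    funext i
    rw [hPv]
    exact hE _ (h N hN _ v hv i)
  obtain ⟨a, ha, b, hb, rfl⟩ := exists_dec (H := H) (l := Fin N) v
  rw [Matrix.mulVec_add, hP1 a ha, hP2 b hb, add_zero] at hPv0
  rw [hPv0, zero_add]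
  exact hb

end Pool.Agent.K6.H94.FG
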