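import Pool.Agent.K6.H61.DH.Defs

/-!
# Varieties of bounded level and varieties which come from the products `Z × X ^ n`: definitions

In the intended use the varieties are the smooth projective ones over an algebraically closed field
with an embedding `ρ` into the field of complex numbers and `T` is the theory `X ↦ H(ρ X, ℚ)`.
-/

set_option autoImplicit false

open CategoryTheory AlgebraicGeometry

universe u

namespace Pool.Agent.K6.H94.FG

open Pool.Agent.H914 Pool.Agent.H914.VarClass Pool.Agent.H914.VarClass.Obj
  Pool.Agent.H914.WeilCohomology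
open Pool.Agent.Y121.AHS
open Pool.Agent.Y133.Half (pw)

/-- The value of a linear map. -/
def val {K A B : Type} [Field K] [Ring A] [Ring B] [Algebra K A] [Algebra K B] (f : A →ₗ[K] B) (x : A) :
    B := f x

/-- The value of a homomorphism of groups. -/
def val' {C : Type u} {A : Type} [AddCommGroup C] [Ring A] (f : C →+ A) (x : C) : A := f x

variable {k : Type u} [Field k] {𝒱 : VarClass k} {ops : CycleOps 𝒱}

/-- The correspondence `H(X) → H(Y)`, `x ↦ pr₂_* (cl z · pr₁^* x)`, given by the cycle `z` on
`X × Y`. -/
noncomputable def act (W : WeilCohomology.{u, 0} ops) {X Y : 𝒱.Obj} (z : (X.prod Y).Cycles) (x : W.H X) :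
    W.H Y := val (W.corr (val' (W.cl (X.prod Y)) z)) x

/-- The variety `Z` has level at most `w`: the Hodge numbers `h^(p,q)(Z)` with `|p - q| > w`
vanish. -/
def VarietyLevelLE (T : HodgeTheory ops) (Z : 𝒱.Obj) (w : ℕ) : Prop :=
  ∀ (p q : ℤ) (x : HL T.W ℂ Z), IsType T.pq p q x → x ≠ 0 → |p - q| ≤ w

/-- The product `Z × X ^ (n + 1)`. -/
noncomputable def zpw (Z X : 𝒱.Obj) (n : ℕ) : 𝒱.Obj := Z.prod (pw X n)

/-- The cohomology of `Y` comes from the products `Z × X ^ (m + 1)` by algebraic correspondences: the
identity of `H(Y)` is a finite sum of compositions `H(Y) → H(Z × X ^ (m + 1)) → H(Y)` of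
correspondences given by algebraic cycles. (This holds if `Y` is one of these products, if there is a
surjective morphism from one of them to `Y`, and if the motive of `Y` is a direct summand of a sum of
Tate twists of their motives.) -/
def FromProducts (T : HodgeTheory ops) (Z X Y : 𝒱.Obj) : Prop :=
  ∃ (r : ℕ) (m a b : Fin r → ℕ) (u : ∀ i, (Y.prod (zpw Z X (m i))).Cycles)
    (v : ∀ i, ((zpw Z X (m i)).prod Y).Cycles),
    (∀ i, (Y.prod (zpw Z X (m i))).IsCyc (a i) (u i) ∧ ((zpw Z X (m i)).prod Y).IsCyc (b i) (v i)) ∧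
    ∀ y : T.W.H Y, ∑ i, act T.W (v i) (act T.W (u i) y) = y

end Pool.Agent.K6.H94.FG
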