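import Pool.Agent.K6.H94.FG.Sys
import Pool.Agent.K6.H94.FG.Defs
import Pool.Agent.N996.BP.Fin1
import Pool.Agent.K6.H61.DH.Law

/-!
# Absolutely Hodge classes on the products of the powers of `X` with all varieties of bounded level
-/

set_option autoImplicit false
set_option linter.unusedSectionVars false

open CategoryTheory AlgebraicGeometry TensorProduct

universe u

namespace Pool.Agent.K6.H94.FG

open Module
open Pool.Agent.H914 Pool.Agent.H914.VarClass Pool.Agent.H914.VarClass.Obj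
  Pool.Agent.H914.WeilCohomology Pool.Agent.Y121 Pool.Agent.Y121.AHS Pool.Agent.N996.BP
  Pool.Agent.K6.H61.DH
open Pool.Agent.Y133.Half (pw ClassPred Sys)

variable {k : Type u} [Field k] {𝒱 : VarClass k} {ops : CycleOps 𝒱} {T : HodgeTheory ops}
  {X Z : 𝒱.Obj}

lemma VarietyLevelLE.lev {w : ℕ} (h : VarietyLevelLE T Z w) : Geo.LevLE (toH T) Z w :=
  fun p q x hx hx0 => h p q x hx hx0

lemma polTo {ψ : Form T X} (h : IsPol T X ψ) : IsPolarisation T X ψ where
  range p q x hx hx0 := ((h p q x hx).2.2 hx0).1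
  conj p q x hx := (h p q x hx).1
  orth p q r s x y hx hy hne := (h p q x hx).2.1 r s y hy hne
  pos p q x hx hx0 := ((h p q x hx).2.2 hx0).2

/-- **Deligne's conjecture.** -/
theorem abs_main {ψ : Form T X} (hψ' : IsPol T X ψ) (w : ℕ) : ∃ N : ℕ, ∀ Z : 𝒱.Obj,
    VarietyLevelLE T Z w → ∀ D : Conjugates T, AllAbs D (Z.prod (pw X N)) →
      (∀ n, AllAbs D (Z.prod (pw X n))) ∧ ∀ Y, FromProducts T Z X Y → AllAbs D Y := by
  have hψ := polTo hψ'
  obtain ⟨N, h⟩ := Geo.sys_main (T := toH T) hψ.isPHS w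
  refine ⟨N, fun Z hZ D hD => ?_⟩
  have h1 : ∀ n, AllAbs D (Z.prod (pw X n)) := fun n =>
    (allAbs_iff D _).2 (le_antisymm (AH.abs_le_hodge (toD D) _)
      (h Z hZ.lev (AH.absSys (toD D)) (fun Y => AH.abs_le_hodge (toD D) Y)
        ((allAbs_iff D _).1 hD).ge n))
  refine ⟨h1, fun Y hY => ?_⟩
  obtain ⟨r, m, a, b, u, v, huv, hid⟩ := hY
  refine (allAbs_iff D _).2 (le_antisymm (AH.abs_le_hodge (toD D) _) ?_)
  intro c hc
  rw [← hid c]
  refine Submodule.sum_mem _ fun i _ => ?_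
  have hu : T.W.corr (T.W.cl _ (u i)) c ∈ (AH.hodgeSys (toH T)).C (Z.prod (pw X (m i))) := by
    have h2 : T.W.corr (T.W.cl _ (u i)) ∈ (AH.hodgeSys (toH T)).Op Y (Z.prod (pw X (m i))) :=
      Sys.Op.corr (ClassPred.sp_of (Q := AH.hodgePred (toH T)) (AH.IsHodge.cl (huv i).1))
    exact Sys.Op.apply (fun _ => le_rfl) h2 hc
  have h2 := ((allAbs_iff D _).1 (h1 (m i))).ge hu
  have h3 : T.W.corr (T.W.cl _ (v i)) ∈ (AH.absSys (toD D)).Op (Z.prod (pw X (m i))) Y :=
    Sys.Op.corr (ClassPred.sp_of (Q := AH.absPred (toD D)) ((AH.absPred (toD D)).cl (huv i).2))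
  exact Sys.Op.apply (fun _ => le_rfl) h3 h2

end Pool.Agent.K6.H94.FG
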