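import Pool.Agent.K6.H94.FG.Com

/-!
# Rational equivariant matrices

The identity of the rational arrays of bounded level is a sum of products of rational equivariant
matrices which factor through the arrays with `N` factors.
-/

set_option autoImplicit false
set_option linter.unusedSectionVars false

namespace Pool.Agent.K6.H94.FG

open Matrix Pool.Agent.N996.BP

variable {ι : Type} [Fintype ι] [DecidableEq ι] (H : HData ι)

/-- The rational vector as a complex vector. -/
def cv {B : Type*} (v : B → ℚ) : B → ℂ := fun i => (v i : ℂ)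

/-- Rational vectors which are complex combinations of rational vectors. -/
lemma rat_span {B : Type*} [Fintype B] {s : Set (B → ℚ)} {v : B → ℚ}
    (h : cv v ∈ Submodule.span ℂ {w | ∃ u ∈ s, w = cv u}) : v ∈ Submodule.span ℚ s := by
  classical
  by_contra hn
  obtain ⟨φ, hφ, hs⟩ := Submodule.exists_le_ker_of_notMem hn
  have hexp : ∀ u : B → ℚ, φ u = ∑ b, u b * φ (Pi.single b 1) := by
    intro u
    have h1 : u = ∑ b, u b • (Pi.single b (1 : ℚ) : B → ℚ) := by
      funext a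
      rw [Finset.sum_apply, Finset.sum_eq_single a]
      · rw [Pi.smul_apply, Pi.single_eq_same, smul_eq_mul, mul_one]
      · intro b _ hb
        rw [Pi.smul_apply, Pi.single_eq_of_ne (Ne.symm hb), smul_zero]
      · intro h; exact absurd (Finset.mem_univ a) h
    conv_lhs => rw [h1]
    rw [map_sum]
    exact Finset.sum_congr rfl fun b _ => by rw [map_smul, smul_eq_mul]
  let Φ : (B → ℂ) →ₗ[ℂ] ℂ :=
    { toFun := fun z => ∑ b, z b * ((φ (Pi.single b 1) : ℚ) : ℂ)
      map_add' := fun x y => by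
        simp only [Pi.add_apply, add_mul, Finset.sum_add_distrib]
      map_smul' := fun c x => by
        simp only [Pi.smul_apply, smul_eq_mul, RingHom.id_apply, Finset.mul_sum, mul_assoc] }
  have hΦ : ∀ u : B → ℚ, Φ (cv u) = ((φ u : ℚ) : ℂ) := by
    intro u
    rw [hexp u, Rat.cast_sum]
    exact Finset.sum_congr rfl fun b _ => by rw [Rat.cast_mul]; rfl
  have h1 : Submodule.span ℂ {w | ∃ u ∈ s, w = cv u} ≤ LinearMap.ker Φ := by
    rw [Submodule.span_le]
    rintro _ ⟨u, hu, rfl⟩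
    have h2 : φ u = 0 := hs (Submodule.subset_span hu)
    change Φ (cv u) = 0
    rw [hΦ, h2, Rat.cast_zero]
  have h2 : Φ (cv v) = 0 := h1 h
  rw [hΦ] at h2
  exact hφ (by exact_mod_cast h2)

lemma mapm {m n p : Type*} [Fintype n] (σ : ℂ ≃+* ℂ) (A : Matrix m n ℂ) (B : Matrix n p ℂ) :
    (A * B).map σ = A.map σ * B.map σ := by
  ext i j
  rw [Matrix.map_apply, Matrix.mul_apply, map_sum, Matrix.mul_apply]
  exact Finset.sum_congr rfl fun k _ => by rw [map_mul]; rfl

variable (κ l : Type) [Fintype κ] [DecidableEq κ] [Fintype l] [DecidableEq l]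

/-- The rational equivariant matrices. -/
def ComQ : Submodule ℚ (Matrix (κ → ι) (l → ι) ℚ) where
  carrier := {A | ∀ t : ℂ, t ≠ 0 → kp κ (H.l t) * cQ A = cQ A * kp l (H.l t)}
  add_mem' {a b} ha hb t ht := by
    have e : cQ (a + b) = cQ a + cQ b := by ext i j; simp [cQ]
    rw [e, Matrix.mul_add, Matrix.add_mul, ha t ht, hb t ht]
  zero_mem' t _ := by
    have e : cQ (0 : Matrix (κ → ι) (l → ι) ℚ) = 0 := by ext i j; simp [cQ]
    rw [e, Matrix.mul_zero, Matrix.zero_mul]
  smul_mem' c a ha t ht := by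
    have e : cQ (c • a) = (c : ℂ) • cQ a := by ext i j; simp [cQ]
    rw [e, Matrix.mul_smul, Matrix.smul_mul, ha t ht]

variable {H κ l}

lemma cQ_Com {a : Matrix (κ → ι) (l → ι) ℚ} (ha : a ∈ ComQ H κ l) : cQ a ∈ Com H κ l := by
  intro g hg
  induction hg using Submonoid.closure_induction with
  | mem x hx =>
    obtain ⟨σ, t, ht, rfl⟩ := hx
    have h1 : (kp κ (H.l t) * cQ a).map σ = (cQ a * kp l (H.l t)).map σ := by rw [ha t ht]
    rw [mapm, mapm, cQ_map, ← kp_map', ← kp_map'] at h1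
    exact h1
  | one => rw [kp_one, kp_one, Matrix.one_mul, Matrix.mul_one]
  | mul x y _ _ hx hy =>
    rw [kp_mul, kp_mul, Matrix.mul_assoc, hy, ← Matrix.mul_assoc, hx, Matrix.mul_assoc]

/-- The equivariant matrices are spanned by the rational ones. -/
lemma Com_span {A : Matrix (κ → ι) (l → ι) ℂ} (hA : A ∈ Com H κ l) :
    A ∈ Submodule.span ℂ {B | ∃ a ∈ ComQ H κ l, B = cQ a} := by
  let C : Submodule ℂ ((κ → ι) × (l → ι) → ℂ) :=
    { carrier := {v | (Matrix.of fun i j => v (i, j)) ∈ Com H κ l}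
      add_mem' := fun {a b} ha hb => by
        have e : (Matrix.of fun i j => (a + b) (i, j)) =
          (Matrix.of fun i j => a (i, j)) + (Matrix.of fun i j => b (i, j)) := rfl
        change (Matrix.of fun i j => (a + b) (i, j)) ∈ Com H κ l
        rw [e]
        exact Submodule.add_mem _ ha hb
      zero_mem' := (Com H κ l).zero_mem
      smul_mem' := fun c a ha => by
        have e : (Matrix.of fun i j => (c • a) (i, j)) =
          c • (Matrix.of fun i j => a (i, j)) := rfl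
        change (Matrix.of fun i j => (c • a) (i, j)) ∈ Com H κ l
        rw [e]
        exact Submodule.smul_mem _ _ ha }
  have hC : ∀ (σ : ℂ ≃+* ℂ), ∀ v ∈ C, (fun i => σ (v i)) ∈ C := by
    intro σ v hv g hg
    have h1 := hv (g.map σ.symm) (GG_map H σ.symm hg)
    have h2 : (kp κ (g.map σ.symm) * (Matrix.of fun i j => v (i, j))).map σ =
        ((Matrix.of fun i j => v (i, j)) * kp l (g.map σ.symm)).map σ := by rw [h1]
    rw [mapm, mapm, ← kp_map', ← kp_map', Matrix.map_map] at h2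
    have e1 : (⇑σ ∘ ⇑σ.symm) = id := by ext; simp
    rw [e1, Matrix.map_id] at h2
    exact h2
  have hxC : (fun z : (κ → ι) × (l → ι) => A z.1 z.2) ∈ C := hA
  rw [Pool.Agent.W437.HD.span_rational C hC] at hxC
  have key : ∀ v ∈ Submodule.span ℂ {w | w ∈ C ∧ ∃ u : (κ → ι) × (l → ι) → ℚ,
      w = fun i => (u i : ℂ)}, (Matrix.of fun i j => v (i, j)) ∈
        Submodule.span ℂ {B | ∃ a ∈ ComQ H κ l, B = cQ a} := by
    intro v hv
    induction hv using Submodule.span_induction with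
    | mem v hv =>
      obtain ⟨hv, u, rfl⟩ := hv
      refine Submodule.subset_span ⟨Matrix.of fun i j => u (i, j), fun t ht => ?_, rfl⟩
      exact hv _ (Submonoid.subset_closure (l_mem_gens H ht))
    | zero => exact Submodule.zero_mem _
    | add a b _ _ ha hb =>
      have e : (Matrix.of fun i j => (a + b) (i, j)) =
        (Matrix.of fun i j => a (i, j)) + (Matrix.of fun i j => b (i, j)) := rfl
      rw [e]
      exact Submodule.add_mem _ ha hb
    | smul c a _ ha =>
      have e : (Matrix.of fun i j => (c • a) (i, j)) =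
        c • (Matrix.of fun i j => a (i, j)) := rfl
      rw [e]
      exact Submodule.smul_mem _ _ ha
  exact key _ hxC

lemma Il_span {z : Matrix (κ → ι) (κ → ι) ℂ} (hz : z ∈ Il H κ l) :
    z ∈ Submodule.span ℂ {B | ∃ a ∈ ComQ H κ l, ∃ b ∈ ComQ H l κ, B = cQ (a * b)} := by
  rw [Il] at hz
  induction hz using Submodule.span_induction with
  | mem x hx =>
    obtain ⟨A, hA, B, hB, rfl⟩ := hx
    have hA' := Com_span hA
    have hB' := Com_span hB
    clear hA hB
    induction hA' using Submodule.span_induction with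
    | mem A hA =>
      obtain ⟨a, ha, rfl⟩ := hA
      induction hB' using Submodule.span_induction with
      | mem B hB =>
        obtain ⟨b, hb, rfl⟩ := hB
        exact Submodule.subset_span ⟨a, ha, b, hb, (cQ_mul a b).symm⟩
      | zero => rw [Matrix.mul_zero]; exact Submodule.zero_mem _
      | add B B' _ _ h h' => rw [Matrix.mul_add]; exact Submodule.add_mem _ h h'
      | smul c B _ h => rw [Matrix.mul_smul]; exact Submodule.smul_mem _ _ h
    | zero => rw [Matrix.zero_mul]; exact Submodule.zero_mem _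
    | add B B' _ _ h h' => rw [Matrix.add_mul]; exact Submodule.add_mem _ h h'
    | smul c B _ h => rw [Matrix.smul_mul]; exact Submodule.smul_mem _ _ h
  | zero => exact Submodule.zero_mem _
  | add a b _ _ ha hb => exact Submodule.add_mem _ ha hb
  | smul c a _ ha => exact Submodule.smul_mem _ _ ha

/-- A criterion for bounded level. -/
lemma lv_of {w : ℕ} (s : Set ((κ → ι) → ℚ))
    (h1 : ∀ y ∈ s, ∀ t : ℂ, t ≠ 0 → kp κ (H.l t) *ᵥ ca y ∈ Submodule.span ℂ {z | ∃ u ∈ s, z = ca u})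
    (h2 : ∀ y ∈ s, ∃ c : ℤ → (κ → ι) → ℂ, ∀ t : ℂ, t ≠ 0 →
      kp κ (H.l t) *ᵥ ca y = ∑ k ∈ Finset.Icc (-w : ℤ) w, t ^ k • c k) {y : (κ → ι) → ℚ}
    (hy : y ∈ s) : ca y ∈ Lv H w κ := by
  obtain ⟨M, hM⟩ : ∃ M : Submodule ℂ ((κ → ι) → ℂ), M = Submodule.span ℂ {z | ∃ u ∈ s, z = ca u} :=
    ⟨_, rfl⟩
  have hca : ∀ u : (κ → ι) → ℚ, ∀ σ : ℂ ≃+* ℂ, (fun i => σ (ca u i)) = ca u := by
    intro u σ
    funext i
    change σ ((u i : ℚ) : ℂ) = _
    rw [map_ratCast]
    rfl
  have hMσ : ∀ σ : ℂ ≃+* ℂ, ∀ v ∈ M, (fun i => σ (v i)) ∈ M := by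
    intro σ v hv
    rw [hM] at hv ⊢
    induction hv using Submodule.span_induction with
    | mem v hv =>
      obtain ⟨u, hu, rfl⟩ := hv
      rw [hca]
      exact Submodule.subset_span ⟨u, hu, rfl⟩
    | zero =>
      have e : (fun i => σ ((0 : (κ → ι) → ℂ) i)) = 0 := by funext i; simp
      rw [e]; exact Submodule.zero_mem _
    | add a b _ _ ha hb =>
      have e : (fun i => σ ((a + b) i)) = (fun i => σ (a i)) + fun i => σ (b i) := by
        funext i; simp
      rw [e]; exact Submodule.add_mem _ ha hb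
    | smul c a _ ha =>
      have e : (fun i => σ ((c • a) i)) = σ c • fun i => σ (a i) := by
        funext i; simp
      rw [e]; exact Submodule.smul_mem _ _ ha
  have hmap : ∀ (σ : ℂ ≃+* ℂ) (g : Matrix ι ι ℂ) (v : (κ → ι) → ℂ),
      kp κ (g.map σ) *ᵥ v = fun i => σ ((kp κ g *ᵥ fun j => σ.symm (v j)) i) := by
    intro σ g v
    funext i
    rw [Matrix.mulVec, dotProduct, Matrix.mulVec, dotProduct, map_sum]
    refine Finset.sum_congr rfl fun j _ => ?_
    rw [map_mul, RingEquiv.apply_symm_apply, kp_map']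
    rfl
  have hMl : ∀ t : ℂ, t ≠ 0 → ∀ v ∈ M, kp κ (H.l t) *ᵥ v ∈ M := by
    intro t ht v hv
    rw [hM] at hv
    induction hv using Submodule.span_induction with
    | mem v hv =>
      obtain ⟨u, hu, rfl⟩ := hv
      rw [hM]
      exact h1 u hu t ht
    | zero => rw [Matrix.mulVec_zero]; exact Submodule.zero_mem _
    | add a b _ _ ha hb => rw [Matrix.mulVec_add]; exact Submodule.add_mem _ ha hb
    | smul c a _ ha => rw [Matrix.mulVec_smul]; exact Submodule.smul_mem _ _ ha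
  have hMg : ∀ g ∈ GG H, ∀ v ∈ M, kp κ g *ᵥ v ∈ M := by
    intro g hg
    induction hg using Submonoid.closure_induction with
    | mem x hx =>
      obtain ⟨σ, t, ht, rfl⟩ := hx
      intro v hv
      rw [hmap]
      exact hMσ σ _ (hMl t ht _ (hMσ σ.symm v hv))
    | one => intro v hv; rw [kp_one, Matrix.one_mulVec]; exact hv
    | mul x y _ _ hx hy =>
      intro v hv
      rw [kp_mul, ← Matrix.mulVec_mulVec]
      exact hx _ (hy v hv)
  have hlev : ∀ v ∈ M, ∃ c : ℤ → (κ → ι) → ℂ, ∀ t : ℂ, t ≠ 0 →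
      kp κ (H.l t) *ᵥ v = ∑ k ∈ Finset.Icc (-w : ℤ) w, t ^ k • c k := by
    intro v hv
    rw [hM] at hv
    induction hv using Submodule.span_induction with
    | mem v hv =>
      obtain ⟨u, hu, rfl⟩ := hv
      exact h2 u hu
    | zero => exact ⟨fun _ => 0, fun t _ => by simp⟩
    | add a b _ _ ha hb =>
      obtain ⟨c, hc⟩ := ha
      obtain ⟨d, hd⟩ := hb
      refine ⟨fun k => c k + d k, fun t ht => ?_⟩
      rw [Matrix.mulVec_add, hc t ht, hd t ht, ← Finset.sum_add_distrib]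
      exact Finset.sum_congr rfl fun k _ => (smul_add _ _ _).symm
    | smul r a _ ha =>
      obtain ⟨c, hc⟩ := ha
      refine ⟨fun k => r • c k, fun t ht => ?_⟩
      rw [Matrix.mulVec_smul, hc t ht, Finset.smul_sum]
      exact Finset.sum_congr rfl fun k _ => smul_comm _ _ _
  intro g hg σ
  have h3 : ca y ∈ M := by rw [hM]; exact Submodule.subset_span ⟨y, hy, rfl⟩
  obtain ⟨c, hc⟩ := hlev _ (hMσ σ.symm _ (hMg g hg _ h3))
  refine ⟨fun k i => σ (c k i), fun t ht => ?_⟩
  rw [hmap, hc t ht]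
  funext i
  rw [Finset.sum_apply, map_sum, Finset.sum_apply]
  refine Finset.sum_congr rfl fun k _ => ?_
  rw [Pi.smul_apply, Pi.smul_apply, smul_eq_mul, smul_eq_mul, map_mul, map_zpow₀]

section Reindex

variable {κ' : Type} [Fintype κ'] [DecidableEq κ']

/-- Reindexing of the rows of a matrix. -/
def rr {R : Type*} (e : κ ≃ κ') (A : Matrix (κ → ι) (l → ι) R) : Matrix (κ' → ι) (l → ι) R :=
  Matrix.of fun i j => A (i ∘ e) j

/-- Reindexing of the columns of a matrix. -/
def rc {R : Type*} (e : κ ≃ κ') (A : Matrix (l → ι) (κ → ι) R) : Matrix (l → ι) (κ' → ι) R :=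
  Matrix.of fun i j => A i (j ∘ e)

lemma rr_mulVec (e : κ ≃ κ') (A : Matrix (κ → ι) (l → ι) ℂ) (v : (l → ι) → ℂ) :
    rr e A *ᵥ v = rei e (A *ᵥ v) := rfl

lemma rc_mulVec (e : κ ≃ κ') (A : Matrix (l → ι) (κ → ι) ℂ) (v : (κ → ι) → ℂ) :
    rc e A *ᵥ rei e v = A *ᵥ v := by
  funext i
  rw [Matrix.mulVec, dotProduct, Matrix.mulVec, dotProduct,
    ← Equiv.sum_comp (e.arrowCongr (Equiv.refl ι))]
  refine Finset.sum_congr rfl fun j _ => ?_
  have h1 : (e.arrowCongr (Equiv.refl ι)) j = j ∘ e.symm := by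
    ext; simp [Equiv.arrowCongr]
  have h2 : (j ∘ ⇑e.symm) ∘ ⇑e = j := by ext; simp
  rw [h1, rc, Matrix.of_apply, rei, h2]

lemma eq_of_mulVec {A B : Matrix (κ → ι) (l → ι) ℂ} (h : ∀ v, A *ᵥ v = B *ᵥ v) : A = B := by
  apply Matrix.toLin'.injective
  apply LinearMap.ext
  intro v
  rw [Matrix.toLin'_apply, Matrix.toLin'_apply, h]

lemma rei_symm (e : κ ≃ κ') (v : (κ' → ι) → ℂ) : rei e (rei e.symm v) = v := by
  funext i
  rw [rei, rei]
  congr 1
  funext x
  simp

lemma rr_mem (e : κ ≃ κ') {A : Matrix (κ → ι) (l → ι) ℂ} (hA : A ∈ Com H κ l) :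
    rr e A ∈ Com H κ' l := by
  intro g hg
  apply eq_of_mulVec
  intro v
  rw [← Matrix.mulVec_mulVec, ← Matrix.mulVec_mulVec, rr_mulVec, rr_mulVec, kp_rei,
    Matrix.mulVec_mulVec, hA g hg, ← Matrix.mulVec_mulVec]

lemma rc_mem (e : κ ≃ κ') {A : Matrix (l → ι) (κ → ι) ℂ} (hA : A ∈ Com H l κ) :
    rc e A ∈ Com H l κ' := by
  intro g hg
  apply eq_of_mulVec
  intro v
  rw [← rei_symm e v, ← Matrix.mulVec_mulVec, ← Matrix.mulVec_mulVec, rc_mulVec, kp_rei, rc_mulVec,
    Matrix.mulVec_mulVec, hA g hg, ← Matrix.mulVec_mulVec]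

/-- Reindexing of the elements of the ideal. -/
lemma Il_rei (e : κ ≃ κ') {z : Matrix (κ → ι) (κ → ι) ℂ} (hz : z ∈ Il H κ l) :
    ∃ z' ∈ Il H κ' l, ∀ v, z' *ᵥ v = rei e (z *ᵥ rei e.symm v) := by
  rw [Il] at hz
  induction hz using Submodule.span_induction with
  | mem x hx =>
    obtain ⟨A, hA, B, hB, rfl⟩ := hx
    refine ⟨rr e A * rc e B, Submodule.subset_span ⟨_, rr_mem e hA, _, rc_mem e hB, rfl⟩,
      fun v => ?_⟩
    conv_lhs => rw [← rei_symm e v]
    rw [← Matrix.mulVec_mulVec, rc_mulVec, rr_mulVec, Matrix.mulVec_mulVec]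
  | zero =>
    refine ⟨0, Submodule.zero_mem _, fun v => ?_⟩
    rw [Matrix.zero_mulVec, Matrix.zero_mulVec]
    rfl
  | add a b _ _ ha hb =>
    obtain ⟨x, hx, hx'⟩ := ha
    obtain ⟨y, hy, hy'⟩ := hb
    refine ⟨x + y, Submodule.add_mem _ hx hy, fun v => ?_⟩
    rw [Matrix.add_mulVec, Matrix.add_mulVec, hx', hy']
    rfl
  | smul c a _ ha =>
    obtain ⟨x, hx, hx'⟩ := ha
    refine ⟨c • x, Submodule.smul_mem _ _ hx, fun v => ?_⟩
    rw [Matrix.smul_mulVec, Matrix.smul_mulVec, hx']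
    rfl

end Reindex

variable (H)

/-- **The identity of the rational arrays of bounded level factors through `N` factors.** -/
theorem exists_idQ (w : ℕ) : ∃ N₀ : ℕ, ∀ N, N₀ ≤ N → ∀ n, N ≤ n →
    ∃ (r : ℕ) (a : Fin r → Matrix (Fin n → ι) (Fin N → ι) ℚ)
      (b : Fin r → Matrix (Fin N → ι) (Fin n → ι) ℚ),
      (∀ i, a i ∈ ComQ H (Fin n) (Fin N)) ∧ (∀ i, b i ∈ ComQ H (Fin N) (Fin n)) ∧
      ∀ y : (Fin n → ι) → ℚ, ca y ∈ Lv H w (Fin n) → ∑ i, a i *ᵥ (b i *ᵥ y) = y := by
  obtain ⟨N₀, h⟩ := exists_id H w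
  refine ⟨N₀, fun N hN n hn => ?_⟩
  obtain ⟨d, rfl⟩ := Nat.exists_eq_add_of_le hn
  obtain ⟨e₀, he₀, hev₀⟩ := h N hN (Fin d)
  obtain ⟨e, he, hee⟩ := Il_rei (finSumFinEquiv (m := N) (n := d)) he₀
  have hev : ∀ v ∈ Lv H w (Fin (N + d)), e *ᵥ v = v := by
    intro v hv
    rw [hee, hev₀ _ (Lv_rei _ hv), rei_symm]
  -- the rational arrays of bounded level
  let L : Submodule ℚ ((Fin (N + d) → ι) → ℚ) :=
    { carrier := {y | ca y ∈ Lv H w (Fin (N + d))}
      add_mem' := fun {a b} ha hb => by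
        have e : ca (a + b) = ca a + ca b := by funext i; simp [ca]
        change ca (a + b) ∈ Lv H w (Fin (N + d))
        rw [e]; exact Submodule.add_mem _ ha hb
      zero_mem' := by
        have e : ca (0 : (Fin (N + d) → ι) → ℚ) = 0 := by funext i; simp [ca]
        change ca 0 ∈ Lv H w (Fin (N + d))
        rw [e]; exact Submodule.zero_mem _
      smul_mem' := fun c a ha => by
        have e : ca (c • a) = (c : ℂ) • ca a := by funext i; simp [ca]
        change ca (c • a) ∈ Lv H w (Fin (N + d))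
        rw [e]; exact Submodule.smul_mem _ _ ha }
  let B := Module.finBasis ℚ L
  let V : Matrix (Fin (N + d) → ι) (Fin (Module.finrank ℚ L)) ℚ :=
    Matrix.of fun i j => ((B j : L) : (Fin (N + d) → ι) → ℚ) i
  have hcol : ∀ (M : Matrix (Fin (N + d) → ι) (Fin (N + d) → ι) ℂ) (i) (j),
      (M * cQ V) i j = (M *ᵥ ca ((B j : L) : (Fin (N + d) → ι) → ℚ)) i := fun M i j => rfl
  have heV : e * cQ V = cQ V := by
    ext i j
    rw [hcol, hev _ (B j).2]
    rfl
  -- descent
  have h1 : cQ V ∈ Submodule.span ℂ {M | ∃ a ∈ ComQ H (Fin (N + d)) (Fin N),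
      ∃ b ∈ ComQ H (Fin N) (Fin (N + d)), M = cQ (a * b * V)} := by
    rw [← heV]
    have he' := Il_span he
    clear hee hev heV he
    induction he' using Submodule.span_induction with
    | mem x hx =>
      obtain ⟨a, ha, b, hb, rfl⟩ := hx
      exact Submodule.subset_span ⟨a, ha, b, hb, (cQ_mul _ _).symm⟩
    | zero => rw [Matrix.zero_mul]; exact Submodule.zero_mem _
    | add a b _ _ ha hb => rw [Matrix.add_mul]; exact Submodule.add_mem _ ha hb
    | smul c a _ ha => rw [Matrix.smul_mul]; exact Submodule.smul_mem _ _ ha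
  let un : ∀ {R : Type}, Matrix (Fin (N + d) → ι) (Fin (Module.finrank ℚ L)) R →
      ((Fin (N + d) → ι) × Fin (Module.finrank ℚ L) → R) := fun M z => M z.1 z.2
  have h2 : cv (un V) ∈ Submodule.span ℂ {w | ∃ u ∈ {u | ∃ a ∈ ComQ H (Fin (N + d)) (Fin N),
      ∃ b ∈ ComQ H (Fin N) (Fin (N + d)), u = un (a * b * V)}, w = cv u} := by
    have h3 : ∀ M ∈ Submodule.span ℂ {M | ∃ a ∈ ComQ H (Fin (N + d)) (Fin N),
        ∃ b ∈ ComQ H (Fin N) (Fin (N + d)), M = cQ (a * b * V)},
        un M ∈ Submodule.span ℂ {w | ∃ u ∈ {u | ∃ a ∈ ComQ H (Fin (N + d)) (Fin N),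
      ∃ b ∈ ComQ H (Fin N) (Fin (N + d)), u = un (a * b * V)}, w = cv u} := by
      intro M hM
      induction hM using Submodule.span_induction with
      | mem x hx =>
        obtain ⟨a, ha, b, hb, rfl⟩ := hx
        exact Submodule.subset_span ⟨_, ⟨a, ha, b, hb, rfl⟩, rfl⟩
      | zero => exact Submodule.zero_mem _
      | add a b _ _ ha hb => exact Submodule.add_mem _ ha hb
      | smul c a _ ha => exact Submodule.smul_mem _ c ha
    exact h3 _ h1
  have h4 := rat_span h2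
  obtain ⟨r, c, g, hg, hsum⟩ : ∃ (r : ℕ) (c : Fin r → ℚ)
      (g : Fin r → ((Fin (N + d) → ι) × Fin (Module.finrank ℚ L) → ℚ)),
      (∀ i, ∃ a ∈ ComQ H (Fin (N + d)) (Fin N), ∃ b ∈ ComQ H (Fin N) (Fin (N + d)),
        g i = un (a * b * V)) ∧ ∑ i, c i • g i = un V := by
    obtain ⟨r, c, g, h5⟩ := Submodule.mem_span_set'.1 h4
    exact ⟨r, c, fun i => g i, fun i => (g i).2, h5⟩
  choose a ha b hb hab using hg
  refine ⟨r, fun i => c i • a i, b, fun i => Submodule.smul_mem _ _ (ha i), hb, fun y hy => ?_⟩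
  -- the columns
  have hV : ∀ j, ∑ i, (c i • a i) *ᵥ (b i *ᵥ ((B j : L) : (Fin (N + d) → ι) → ℚ)) =
      ((B j : L) : (Fin (N + d) → ι) → ℚ) := by
    intro j
    funext x
    have h5 := congrFun hsum (x, j)
    rw [Finset.sum_apply] at h5 ⊢
    have h6 : un V (x, j) = ((B j : L) : (Fin (N + d) → ι) → ℚ) x := rfl
    rw [← h6, ← h5]
    refine Finset.sum_congr rfl fun i _ => ?_
    rw [Matrix.smul_mulVec, Pi.smul_apply, Pi.smul_apply, hab i, Matrix.mulVec_mulVec]
    rfl
  have h5 : (⟨y, hy⟩ : L) = ∑ j, B.repr ⟨y, hy⟩ j • B j := (B.sum_repr _).symm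
  have h6 : y = ∑ j, B.repr ⟨y, hy⟩ j • ((B j : L) : (Fin (N + d) → ι) → ℚ) := by
    have := congrArg Subtype.val h5
    rw [AddSubmonoidClass.coe_finsetSum] at this
    exact this
  have h7 : ∀ i, (c i • a i) *ᵥ (b i *ᵥ y) = ∑ j, B.repr ⟨y, hy⟩ j •
      ((c i • a i) *ᵥ (b i *ᵥ ((B j : L) : (Fin (N + d) → ι) → ℚ))) := by
    intro i
    conv_lhs => rw [h6]
    rw [Matrix.mulVec_sum, Matrix.mulVec_sum]
    refine Finset.sum_congr rfl fun j _ => ?_
    rw [Matrix.mulVec_smul, Matrix.mulVec_smul]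
  rw [Finset.sum_congr rfl fun i _ => h7 i, Finset.sum_comm]
  conv_rhs => rw [h6]
  refine Finset.sum_congr rfl fun j _ => ?_
  rw [← Finset.smul_sum, hV]

end Pool.Agent.K6.H94.FG
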