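import Pool.Agent.K6.H94.FG.GenW

/-!
# The matrix coefficients of the arrays of bounded level

The coordinates of `g v`, as functions of the element `g` of the Hodge group, for all arrays `v` of level
at most `w`, with any number of factors, are linear combinations of the entries of one Kronecker power.
-/

set_option autoImplicit false
set_option linter.unusedSectionVars false

namespace Pool.Agent.K6.H94.FG

open Matrix Pool.Agent.N996.BP

variable {ι : Type} [Fintype ι] [DecidableEq ι] (H : HData ι)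

/-- The functions on the group given by the entries of the Kronecker power with `N` factors. -/
def Ent (N : ℕ) : Submodule ℂ (GG H → ℂ) :=
  Submodule.span ℂ {F | ∃ i j : Fin N → ι, F = fun γ : GG H => kp (Fin N) (γ : Matrix ι ι ℂ) i j}

variable {H}

lemma ent_mem {m N : ℕ} (h : m ≤ N) (i j : Fin m → ι) :
    (fun γ : GG H => kp (Fin m) (γ : Matrix ι ι ℂ) i j) ∈ Ent H N := by
  obtain ⟨d, rfl⟩ := Nat.exists_eq_add_of_le h
  refine Submodule.subset_span ⟨Fin.append i fun _ => H.D.o, Fin.append j fun _ => H.D.o, ?_⟩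
  funext γ
  rw [kp_apply, kp_apply, Fin.prod_univ_add]
  have h1 : (γ : Matrix ι ι ℂ) H.D.o H.D.o = if H.D.o = H.D.o then 1 else 0 := GG_ucol γ.2 H.D.o
  simp only [Fin.append_left, Fin.append_right, h1, if_pos, Finset.prod_const_one, mul_one]

lemma coef_mem {m N : ℕ} (h : m ≤ N) (v : (Fin m → ι) → ℂ) (i : Fin m → ι) :
    (fun γ : GG H => (kp (Fin m) (γ : Matrix ι ι ℂ) *ᵥ v) i) ∈ Ent H N := by
  have h1 : (fun γ : GG H => (kp (Fin m) (γ : Matrix ι ι ℂ) *ᵥ v) i) =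
      ∑ j, v j • fun γ : GG H => kp (Fin m) (γ : Matrix ι ι ℂ) i j := by
    funext γ
    rw [Matrix.mulVec, dotProduct, Finset.sum_apply]
    exact Finset.sum_congr rfl fun j _ => mul_comm _ _
  rw [h1]
  exact Submodule.sum_mem _ fun j _ => Submodule.smul_mem _ _ (ent_mem h i j)

lemma Lv_rei {w : ℕ} {κ l : Type} [Fintype κ] [DecidableEq κ] [Fintype l] [DecidableEq l]
    (e : κ ≃ l) {v : (κ → ι) → ℂ} (hv : v ∈ Lv H w κ) : rei e v ∈ Lv H w l := by
  intro g hg σ
  obtain ⟨c, hc⟩ := hv g hg σ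
  refine ⟨fun k => rei e (c k), fun t ht => ?_⟩
  rw [kp_rei, kp_rei, hc t ht]
  funext i
  rw [rei, Finset.sum_apply, Finset.sum_apply]
  rfl

variable (H)

/-- **Matrix coefficients of bounded level.** -/
theorem exists_N (w : ℕ) : ∃ N₀ : ℕ, ∀ N, N₀ ≤ N → ∀ (κ : Type) [Fintype κ] [DecidableEq κ],
    ∀ v ∈ Lv H w κ, ∀ i, (fun γ : GG H => (kp κ (γ : Matrix ι ι ℂ) *ᵥ v) i) ∈ Ent H N := by
  obtain ⟨r, E, _, _, g, hg, hst⟩ := exists_genW H
  obtain ⟨M, hM, hlv⟩ := hg.lv w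
  let Q : ℕ → Submodule ℂ (MvPolynomial (ι × ι) ℂ) := fun n =>
    Submodule.span ℂ {f | ∃ m ≤ n, ∃ v ∈ Lv H w (Fin m), ∃ i, f = mc v i}
  let ev : MvPolynomial (ι × ι) ℂ →ₗ[ℂ] E := (MvPolynomial.aeval (ent g)).toLinearMap
  have hQ : ∀ {n n' : ℕ}, n ≤ n' → Q n ≤ Q n' := by
    intro n n' h
    refine Submodule.span_mono ?_
    rintro f ⟨m, hm, v, hv, i, rfl⟩
    exact ⟨m, hm.trans h, v, hv, i, rfl⟩
  have hR : ∀ n, (Q n).map ev ≤ M := by
    intro n
    rw [Submodule.map_span_le]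
    rintro f ⟨m, hm, v, hv, i, rfl⟩
    change MvPolynomial.aeval (ent g) (mc v i) ∈ M
    rw [aeval_mc]
    exact Sp_apply H (hlv _ v hv) i
  let f : ℕ →o Submodule ℂ M :=
    ⟨fun n => ((Q n).map ev).comap M.subtype, fun n n' h =>
      Submodule.comap_mono (Submodule.map_mono (hQ h))⟩
  obtain ⟨N₀, hN₀⟩ := monotone_stabilizes_iff_noetherian.2
    (inferInstance : IsNoetherian ℂ M) f
  refine ⟨N₀, fun N hN κ _ _ v hv i => ?_⟩
  -- reduction to `Fin m`
  obtain ⟨m, e⟩ : ∃ m, Nonempty (κ ≃ Fin m) := ⟨Fintype.card κ, ⟨Fintype.equivFin κ⟩⟩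
  obtain ⟨e⟩ := e
  have hv' := Lv_rei e hv
  have h1 : ∀ γ : Matrix ι ι ℂ, (kp κ γ *ᵥ v) i = (kp (Fin m) γ *ᵥ rei e v) (i ∘ e.symm) := by
    intro γ
    rw [kp_rei, rei]
    congr 1
    funext x
    simp
  have h2 : ev (mc (rei e v) (i ∘ e.symm)) ∈ (Q N₀).map ev := by
    have h3 : ev (mc (rei e v) (i ∘ e.symm)) ∈ (Q (max m N₀)).map ev :=
      Submodule.mem_map_of_mem (Submodule.subset_span ⟨m, le_max_left _ _, _, hv', _, rfl⟩)
    have h4 : (⟨ev (mc (rei e v) (i ∘ e.symm)), hR _ h3⟩ : M) ∈ f (max m N₀) := h3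
    rw [← hN₀ _ (le_max_right m N₀)] at h4
    exact h4
  obtain ⟨q, hq, hq'⟩ := h2
  have h3 : ∀ γ : GG H, (kp κ (γ : Matrix ι ι ℂ) *ᵥ v) i =
      MvPolynomial.aeval (ent (γ : Matrix ι ι ℂ)) q := by
    intro γ
    have h4 : MvPolynomial.aeval (ent g) (mc (rei e v) (i ∘ e.symm) - q) = 0 := by
      rw [map_sub, sub_eq_zero]
      exact hq'.symm
    have h5 := rel_GG hg hst h4 γ.2
    rw [map_sub, sub_eq_zero, aeval_mc] at h5
    rw [h1, ← h5]
    rfl
  have h4 : (fun γ : GG H => (kp κ (γ : Matrix ι ι ℂ) *ᵥ v) i) =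
      fun γ : GG H => MvPolynomial.aeval (ent (γ : Matrix ι ι ℂ)) q := funext h3
  rw [h4]
  clear h4 h3 hq'
  induction hq using Submodule.span_induction with
  | mem f hf =>
    obtain ⟨m, hm, v, -, i, rfl⟩ := hf
    have h5 := coef_mem (H := H) (hm.trans hN) v i
    have h6 : (fun γ : GG H => MvPolynomial.aeval (ent (γ : Matrix ι ι ℂ)) (mc v i)) =
        fun γ : GG H => (kp (Fin m) (γ : Matrix ι ι ℂ) *ᵥ v) i := by
      funext γ
      rw [aeval_mc]
      rfl
    rw [h6]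
    exact h5
  | zero =>
    have h6 : (fun γ : GG H => MvPolynomial.aeval (ent (γ : Matrix ι ι ℂ))
        (0 : MvPolynomial (ι × ι) ℂ)) = 0 := by
      funext γ; simp
    rw [h6]
    exact Submodule.zero_mem _
  | add x y _ _ hx hy =>
    have h6 : (fun γ : GG H => MvPolynomial.aeval (ent (γ : Matrix ι ι ℂ)) (x + y)) =
        (fun γ : GG H => MvPolynomial.aeval (ent (γ : Matrix ι ι ℂ)) x) +
          fun γ : GG H => MvPolynomial.aeval (ent (γ : Matrix ι ι ℂ)) y := by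
      funext γ; simp
    rw [h6]
    exact Submodule.add_mem _ hx hy
  | smul c x _ hx =>
    have h6 : (fun γ : GG H => MvPolynomial.aeval (ent (γ : Matrix ι ι ℂ)) (c • x)) =
        c • fun γ : GG H => MvPolynomial.aeval (ent (γ : Matrix ι ι ℂ)) x := by
      funext γ; simp
    rw [h6]
    exact Submodule.smul_mem _ _ hx

end Pool.Agent.K6.H94.FG
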