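import Pool.Agent.K6.H94.FG.Defs

/-!
# The generalized Hodge conjecture: definitions

In the intended use the varieties are the smooth projective ones over the field of complex numbers and
`T` is the theory `X ↦ H(X, ℚ)`.
-/

set_option autoImplicit false

open CategoryTheory AlgebraicGeometry

universe u

namespace Pool.Agent.K6.H94.FG

open Pool.Agent.H914 Pool.Agent.H914.VarClass Pool.Agent.H914.VarClass.Obj
  Pool.Agent.H914.WeilCohomology
open Pool.Agent.Y121.AHS

variable {k : Type u} [Field k] {𝒱 : VarClass k} {ops : CycleOps 𝒱}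

/-- The rational subspaces of `H(X)`. -/
abbrev RSub (T : HodgeTheory ops) (X : 𝒱.Obj) : Type := Submodule T.W.K (T.W.H X)

/-- The complex subspaces of `H(X, ℂ)`. -/
abbrev CSub (T : HodgeTheory ops) (X : 𝒱.Obj) : Type := Submodule ℂ (HL T.W ℂ X)

/-- The generators of `N^j H(X)`: the classes `pr₂_* (cl z · pr₁^* y)`, where `z` is a cycle of codimension
`p ≥ dim Y + j` on `Y × X`, for some `Y`, and `y` is any class on `Y`. Such a class is supported on the
image of `z` in `X`, which has dimension at most `dim X - j`. -/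
def NGen (T : HodgeTheory ops) (X : 𝒱.Obj) (j : ℕ) : Set (T.W.H X) :=
  {x | ∃ (Y : 𝒱.Obj) (p : ℕ) (z : (Y.prod X).Cycles) (y : T.W.H Y),
    Y.dim + j ≤ p ∧ (Y.prod X).IsCyc p z ∧ act T.W z y = x}

/-- `N^j H(X)`, the span of these classes. By resolution of singularities and by the theorem of Deligne
these classes span the classes which vanish on the complement of a closed subset of `X` of codimension
at least `j` (take for `z` the graph of the map of a resolution to `X`). -/
noncomputable def coniveau (T : HodgeTheory ops) (X : 𝒱.Obj) (j : ℕ) : RSub T X :=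
  Submodule.span T.W.K (NGen T X j)

/-- The rational subspace `V` is contained in `H^i(X)`. -/
def InDegree {T : HodgeTheory ops} {X : 𝒱.Obj} (V : RSub T X) (i : ℕ) : Prop := V ≤ T.W.gr X i

/-- The rational subspace `V` is contained in `N^j H(X)`. -/
def InConiveau {T : HodgeTheory ops} {X : 𝒱.Obj} (V : RSub T X) (j : ℕ) : Prop := V ≤ coniveau T X j

/-- The images of the elements of the rational subspace `V` in `H(X, ℂ)`. -/
def rationalPoints {T : HodgeTheory ops} {X : 𝒱.Obj} (V : RSub T X) : Set (HL T.W ℂ X) :=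
  {y | ∃ x ∈ V, emL T.W ℂ x = y}

/-- The complex subspace `V ⊗ ℂ` of `H(X, ℂ)`. -/
noncomputable def complexSpan {T : HodgeTheory ops} {X : 𝒱.Obj} (V : RSub T X) : CSub T X :=
  Submodule.span ℂ (rationalPoints V)

/-- The complex subspace `V^(p,q) = (V ⊗ ℂ) ∩ H^(p,q)(X)`. -/
noncomputable def typePart {T : HodgeTheory ops} {X : 𝒱.Obj} (V : RSub T X) (p q : ℤ) : CSub T X :=
  complexSpan V ⊓ T.pq X p q

/-- The rational subspace `V` is a Hodge substructure: `V ⊗ ℂ` is the sum of the subspaces
`V^(p,q)`. -/
def IsSubstructure {T : HodgeTheory ops} {X : 𝒱.Obj} (V : RSub T X) : Prop :=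
  complexSpan V ≤ ⨆ r : ℤ × ℤ, typePart V r.1 r.2

/-- The level of the Hodge substructure `V` is at most `l`: `V^(p,q) ≠ 0` only if `|p - q| ≤ l`. -/
def LevelLE {T : HodgeTheory ops} {X : 𝒱.Obj} (V : RSub T X) (l : ℤ) : Prop :=
  ∀ p q : ℤ, typePart V p q ≠ ⊥ → |p - q| ≤ l

/-- The generalized Hodge conjecture for `X` in the levels up to `v`: for all `i` and `j` with
`i - 2 j ≤ v`, every Hodge substructure `V` of `H^i(X)` of level at most `i - 2 j` is contained in
`N^j H^i(X)`. (For `v = 0` this is the Hodge conjecture for `X`, and for `v ≥ dim X` this is the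
generalized Hodge conjecture for `X`.) -/
def GHC (T : HodgeTheory ops) (v : ℕ) (X : 𝒱.Obj) : Prop :=
  ∀ (i j : ℕ) (V : RSub T X), i ≤ 2 * j + v → InDegree V i → IsSubstructure V →
    LevelLE V ((i : ℤ) - 2 * j) → InConiveau V j

end Pool.Agent.K6.H94.FG
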