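import Pool.Agent.K6.H94.FG.Ghc
import Pool.Agent.K6.H94.FG.Del

/-!
# The generalized Hodge conjecture in bounded level: comparison of the definitions
-/

set_option autoImplicit false
set_option linter.unusedSectionVars false

open CategoryTheory AlgebraicGeometry TensorProduct

universe u

namespace Pool.Agent.K6.H94.FG

open Module
open Pool.Agent.H914 Pool.Agent.H914.VarClass Pool.Agent.H914.VarClass.Obj
  Pool.Agent.H914.WeilCohomology Pool.Agent.Y121 Pool.Agent.Y121.AHS Pool.Agent.N996.BP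
open Pool.Agent.Y133.Half (pw ClassPred Sys)
open Pool.Agent.K6.H61.DH (Form IsPol)

variable {k : Type u} [Field k] {𝒱 : VarClass k} {ops : CycleOps 𝒱} {T : HodgeTheory ops}
  {X Y Z : 𝒱.Obj}

lemma mem_cs {V : RSub T X} (y : HL T.W ℂ X) :
    y ∈ complexSpan V ↔ (show (AH.CW (toH T)).H X from y) ∈ Geo.cs (T := toH T) V := by
  have h : rationalPoints V = {y | ∃ u ∈ V, y = emL T.W ℂ u} := by
    ext y
    constructor
    · rintro ⟨x, hx, rfl⟩; exact ⟨x, hx, rfl⟩
    · rintro ⟨x, hx, rfl⟩; exact ⟨x, hx, rfl⟩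
  rw [complexSpan, h]
  exact Iff.rfl

lemma cs_eq (V : RSub T X) :
    complexSpan V = (show Submodule ℂ (HL T.W ℂ X) from Geo.cs (T := toH T) V) := by
  ext y
  exact mem_cs y

lemma subH_iff {V : RSub T X} : IsSubstructure V ↔ Geo.SubH (T := toH T) V := by
  simp only [IsSubstructure, typePart]
  rw [cs_eq]
  exact Iff.rfl

lemma levH_iff {V : RSub T X} {l : ℤ} : LevelLE V l ↔ Geo.LevH (T := toH T) V l := by
  simp only [LevelLE, typePart]
  rw [cs_eq]
  exact Iff.rfl

lemma cnv_iff {V : RSub T X} {j : ℕ} : InConiveau V j ↔ V ≤ Geo.cnv T.W X j := Iff.rfl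

lemma ghc_iff {v : ℕ} : GHC T v X ↔ Geo.GH (toH T) v X := by
  constructor
  · intro h l j V hl hV hst hw
    have h1 := Geo.levH_of (T := toH T) hw
    have e : ((l + 2 * j : ℕ) : ℤ) - 2 * j = l := by push_cast; ring
    rw [← e] at h1
    exact h (l + 2 * j) j V (by omega) hV (subH_iff.2 (Geo.subH_of (T := toH T) hV hst))
      (levH_iff.2 h1)
  · intro h i j V hij hV hS hL
    rw [subH_iff] at hS
    rw [levH_iff] at hL
    by_cases hi : 2 * j ≤ i
    · obtain ⟨l, rfl⟩ : ∃ l, i = l + 2 * j := ⟨i - 2 * j, by omega⟩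
      have e : ((l + 2 * j : ℕ) : ℤ) - 2 * j = l := by push_cast; ring
      rw [e] at hL
      exact h l j V (by omega) hV (Geo.SubH.stab (T := toH T) hS)
        (Geo.SubH.wts (T := toH T) hS hL)
    · -- negative level
      have h1 : ∀ r : ℤ × ℤ, Geo.cs (T := toH T) V ⊓ (toH T).pq X r.1 r.2 = ⊥ := by
        intro r
        by_contra hne
        have h2 := hL r.1 r.2 hne
        have h3 := abs_nonneg (r.1 - r.2)
        omega
      intro x hx
      have h3 : x = 0 := Geo.SubH.eq_zero (T := toH T) hS h1 hx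
      rw [h3]
      exact Submodule.zero_mem _

/-- **The generalized Hodge conjecture in bounded level, for the products of the powers of `X` with all
varieties of bounded level.** -/
theorem ghc_main {ψ : Form T X} (hψ' : IsPol T X ψ) (v w : ℕ) : ∃ N : ℕ, ∀ Z : 𝒱.Obj,
    VarietyLevelLE T Z w → GHC T v (Z.prod (pw X N)) →
      (∀ n, GHC T v (Z.prod (pw X n))) ∧ ∀ Y, FromProducts T Z X Y → GHC T v Y := by
  have hψ := polTo hψ'
  obtain ⟨N, h⟩ := Geo.gh_main (T := toH T) hψ.isPHS v w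
  refine ⟨N, fun Z hZ hN => ?_⟩
  have h1 : ∀ n, Geo.GH (toH T) v (Z.prod (pw X n)) := h Z hZ.lev (ghc_iff.1 hN)
  refine ⟨fun n => ghc_iff.2 (h1 n), fun Y hY => ?_⟩
  obtain ⟨r, m, a, b, u, u', huv, hid⟩ := hY
  exact ghc_iff.2 (Geo.gh_from (T := toH T) (P := fun i => Z.prod (pw X (m i)))
    (fun i => h1 (m i)) (fun i => (huv i).1) (fun i => (huv i).2) hid)

end Pool.Agent.K6.H94.FG
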