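import Pool.Agent.K6.H94.FG.Lv
import Pool.Agent.N996.BP.FixAll

/-!
# Generic points and arrays of bounded level

The coordinates of the values of a generic point at the arrays of level at most `w`, with any number of
factors, belong to a space of finite dimension.
-/

set_option autoImplicit false
set_option linter.unusedSectionVars false

namespace Pool.Agent.K6.H94.FG

open Matrix LaurentPolynomial Pool.Agent.N996.BP

variable {ι : Type} [Fintype ι] [DecidableEq ι] (H : HData ι)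

/-- The combinations of arrays of level at most `w` with coefficients in `M`. -/
def Sp {E : Type} [Field E] [Algebra ℂ E] (M : Submodule ℂ E) (w : ℕ) (κ : Type) [Fintype κ]
    [DecidableEq κ] : Submodule ℂ ((κ → ι) → E) :=
  Submodule.span ℂ {x : (κ → ι) → E | ∃ m ∈ M, ∃ v ∈ Lv H w κ, x = fun i => m * algebraMap ℂ E (v i)}

lemma Sp_apply {E : Type} [Field E] [Algebra ℂ E] {M : Submodule ℂ E} {w : ℕ} {κ : Type} [Fintype κ]
    [DecidableEq κ] {x : (κ → ι) → E} (hx : x ∈ Sp H M w κ) (i : κ → ι) : x i ∈ M := by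
  induction hx using Submodule.span_induction with
  | mem x hx =>
    obtain ⟨m, hm, v, -, rfl⟩ := hx
    change m * algebraMap ℂ E (v i) ∈ M
    rw [mul_comm, ← Algebra.smul_def]
    exact M.smul_mem _ hm
  | zero => exact M.zero_mem
  | add x y _ _ hx hy => exact M.add_mem hx hy
  | smul c x _ hx => exact M.smul_mem c hx

/-- A generic point, with the additional properties. -/
structure IsGenW (E : Type) [Field E] [Algebra ℂ E] (g : Matrix ι ι E) (r : ℕ) : Prop where
  gen : IsGen H E g r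
  sp : ∀ f : MvPolynomial (ι × ι) ℂ, MvPolynomial.aeval (ent g) f = 0 →
    MvPolynomial.aeval (ent (1 : Matrix ι ι ℂ)) f = 0
  lv : ∀ w : ℕ, ∃ M : Submodule ℂ E, FiniteDimensional ℂ M ∧ ∀ (κ : Type) [Fintype κ]
    [DecidableEq κ], ∀ v ∈ Lv H w κ, (kp κ g *ᵥ fun i => algebraMap ℂ E (v i)) ∈ Sp H M w κ

lemma isGenW_zero : IsGenW H ℂ (1 : Matrix ι ι ℂ) 0 := by
  refine ⟨isGen_zero H, fun f hf => hf, fun w => ⟨⊤, inferInstance, fun κ _ _ v hv => ?_⟩⟩
  rw [kp_one, Matrix.one_mulVec]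
  exact Submodule.subset_span ⟨1, Submodule.mem_top, v, hv, by simp⟩

variable {E : Type} [Field E] [Algebra ℂ E] {E' : Type} [Field E'] [Algebra ℂ E'] [Algebra E E']
  [IsScalarTower ℂ E E']

lemma Sp_next (σ : ℂ ≃+* ℂ) (T : E'ˣ) {M : Submodule ℂ E} {w : ℕ} {κ : Type} [Fintype κ]
    [DecidableEq κ] {x : (κ → ι) → E} (hx : x ∈ Sp H M w κ) :
    kp κ (ltU H σ T) *ᵥ (fun i => algebraMap E E' (x i)) ∈ Sp H (LV (T : E') M w) w κ := by
  induction hx using Submodule.span_induction with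
  | mem x hx =>
    obtain ⟨m, hm, v, hv, rfl⟩ := hx
    obtain ⟨c, hc, h⟩ := Lv_univ hv σ
    have h1 : (fun i => algebraMap E E' (m * algebraMap ℂ E (v i))) =
        algebraMap E E' m • (fun i => algebraMap ℂ E' (v i)) := by
      funext i
      rw [map_mul, Pi.smul_apply, smul_eq_mul, ← IsScalarTower.algebraMap_apply]
    rw [h1, Matrix.mulVec_smul, h E' T, Finset.smul_sum]
    refine Submodule.sum_mem _ fun k hk => Submodule.subset_span
      ⟨(T : E') ^ k * algebraMap E E' m, Submodule.subset_span ⟨k, hk, m, hm, rfl⟩, c k, hc k hk, ?_⟩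
    funext i
    rw [Pi.smul_apply, Pi.smul_apply, smul_eq_mul, smul_eq_mul, Units.val_zpow_eq_zpow_val]
    ring
  | zero =>
    have h1 : (fun i => algebraMap E E' ((0 : (κ → ι) → E) i)) = 0 := by
      funext i; simp
    rw [h1, Matrix.mulVec_zero]
    exact Submodule.zero_mem _
  | add x y _ _ hx hy =>
    have h1 : (fun i => algebraMap E E' ((x + y) i)) =
        (fun i => algebraMap E E' (x i)) + fun i => algebraMap E E' (y i) := by
      funext i; simp
    rw [h1, Matrix.mulVec_add]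
    exact Submodule.add_mem _ hx hy
  | smul c x _ hx =>
    have h1 : (fun i => algebraMap E E' ((c • x) i)) = c • fun i => algebraMap E E' (x i) := by
      funext i
      rw [Pi.smul_apply, Pi.smul_apply, Algebra.smul_def, map_mul, Algebra.smul_def,
        ← IsScalarTower.algebraMap_apply]
    rw [h1, Matrix.mulVec_smul]
    exact Submodule.smul_mem _ _ hx

/-- The next point. -/
lemma nxt_isGenW {g : Matrix ι ι E} {r : ℕ} (hg : IsGenW H E g r) (σ : ℂ ≃+* ℂ)
    (hn : Tr ℂ (ent ((nxt H σ g).map (algebraMap (E[T;T⁻¹]) (FractionRing (E[T;T⁻¹])))))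
      (r + 1)) :
    IsGenW H (FractionRing (E[T;T⁻¹]))
      ((nxt H σ g).map (algebraMap (E[T;T⁻¹]) (FractionRing (E[T;T⁻¹])))) (r + 1) := by
  let j : E[T;T⁻¹] →ₐ[ℂ] FractionRing (E[T;T⁻¹]) := IsScalarTower.toAlgHom ℂ _ _
  have he : (nxt H σ g).map (algebraMap (E[T;T⁻¹]) (FractionRing (E[T;T⁻¹]))) =
      ltU H σ (Units.map (j : E[T;T⁻¹] →* FractionRing (E[T;T⁻¹])) (TU E)) *
        g.map (algebraMap E (FractionRing (E[T;T⁻¹]))) := by
    rw [← ltU_map H j, nxt]
    refine (Matrix.map_mul (f := (j : E[T;T⁻¹] →+* FractionRing (E[T;T⁻¹])))).trans ?_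
    congr 1
  refine ⟨nxt_isGen H hg.gen σ hn, fun f hf => ?_, fun w => ?_⟩
  · -- specialisation
    have h1 := aeval_ent_map j (nxt H σ g) f
    have h2 : (nxt H σ g).map j =
        (nxt H σ g).map (algebraMap (E[T;T⁻¹]) (FractionRing (E[T;T⁻¹]))) := rfl
    rw [h2, hf] at h1
    have h3 : MvPolynomial.aeval (ent (nxt H σ g)) f = 0 :=
      (IsFractionRing.injective (E[T;T⁻¹]) (FractionRing (E[T;T⁻¹]))) (h1.trans (map_zero _).symm)
    have h4 := aeval_ent_map ((spec (1 : Eˣ)).restrictScalars ℂ) (nxt H σ g) f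
    rw [h3, map_zero] at h4
    have h5 : (nxt H σ g).map ((spec (1 : Eˣ)).restrictScalars ℂ) = ltU H σ 1 * g :=
      nxt_spec H σ g 1
    rw [h5, ltU_one, Matrix.one_mul] at h4
    exact hg.sp f h4.symm
  · obtain ⟨M, hM, h⟩ := hg.lv w
    refine ⟨LV ((Units.map (j : E[T;T⁻¹] →* FractionRing (E[T;T⁻¹])) (TU E) :
        (FractionRing (E[T;T⁻¹]))ˣ) : FractionRing (E[T;T⁻¹])) M w,
        (LV_finrank (E' := FractionRing (E[T;T⁻¹])) _ M w).1, fun κ _ _ v hv => ?_⟩
    rw [he, kp_mul, ← Matrix.mulVec_mulVec]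
    have h1 : kp κ (g.map (algebraMap E (FractionRing (E[T;T⁻¹])))) *ᵥ
        (fun i => algebraMap ℂ (FractionRing (E[T;T⁻¹])) (v i)) =
          fun i => algebraMap E (FractionRing (E[T;T⁻¹]))
            ((kp κ g *ᵥ fun i => algebraMap ℂ E (v i)) i) := by
      funext i
      rw [Matrix.mulVec, dotProduct, Matrix.mulVec, dotProduct, map_sum]
      refine Finset.sum_congr rfl fun j _ => ?_
      rw [map_mul, ← IsScalarTower.algebraMap_apply, kp_map]
      rfl
    rw [h1]
    exact Sp_next H σ _ (h κ v hv)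

/-- **Existence of a generic point with a stable ideal of relations.** -/
theorem exists_genW : ∃ (r : ℕ) (E : Type) (_ : Field E) (_ : Algebra ℂ E) (g : Matrix ι ι E),
    IsGenW H E g r ∧
      ∀ γ ∈ GG H, ∀ f : MvPolynomial (ι × ι) ℂ, MvPolynomial.aeval (ent g) f = 0 →
        MvPolynomial.aeval (ent (γ.map (algebraMap ℂ E) * g)) f = 0 := by
  classical
  have hb : ∀ r, (∃ (E : Type) (_ : Field E) (_ : Algebra ℂ E) (g : Matrix ι ι E),
      IsGenW H E g r) → r ≤ Fintype.card ι ^ 2 := by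
    rintro r ⟨E, _, _, g, hg⟩
    have := hg.gen.tr.le_card
    rwa [Fintype.card_prod, ← sq] at this
  obtain ⟨r, hr, hmax⟩ : ∃ r, (∃ (E : Type) (_ : Field E) (_ : Algebra ℂ E) (g : Matrix ι ι E),
      IsGenW H E g r) ∧ ¬ (∃ (E : Type) (_ : Field E) (_ : Algebra ℂ E) (g : Matrix ι ι E),
        IsGenW H E g (r + 1)) := by
    by_contra hcon
    push Not at hcon
    have hall : ∀ r, ∃ (E : Type) (_ : Field E) (_ : Algebra ℂ E) (g : Matrix ι ι E),
        IsGenW H E g r := by
      intro r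
      induction r with
      | zero => exact ⟨ℂ, inferInstance, inferInstance, 1, isGenW_zero H⟩
      | succ r ih => exact hcon r ih
    have := hb _ (hall (Fintype.card ι ^ 2 + 1))
    omega
  obtain ⟨E, _, _, g, hg⟩ := hr
  refine ⟨r, E, inferInstance, inferInstance, g, hg, ?_⟩
  have hstep : ∀ (σ : ℂ ≃+* ℂ) (f : MvPolynomial (ι × ι) ℂ), MvPolynomial.aeval (ent g) f = 0 →
      ∀ s : Eˣ, MvPolynomial.aeval (ent (ltU H σ s * g)) f = 0 := by
    intro σ f hf s
    have h1 : ¬ Tr ℂ (ent ((nxt H σ g).map (algebraMap (E[T;T⁻¹]) (FractionRing (E[T;T⁻¹])))))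
        (r + 1) := fun h => hmax ⟨_, inferInstance, inferInstance, _, nxt_isGenW H hg σ h⟩
    have h2 := nxt_rel H hg.gen.tr σ h1 f hf
    have h3 := aeval_ent_map ((spec s).restrictScalars ℂ) (nxt H σ g) f
    rw [h2, map_zero] at h3
    have h4 : (nxt H σ g).map ((spec s).restrictScalars ℂ) = ltU H σ s * g := nxt_spec H σ g s
    rw [h4] at h3
    exact h3.symm
  intro γ hγ
  induction hγ using Submonoid.closure_induction with
  | mem x hx =>
    obtain ⟨σ, t, ht, rfl⟩ := hx
    intro f hf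
    have h1 := hstep σ f hf (Units.map ((algebraMap ℂ E : ℂ →+* E) : ℂ →* E)
      (Units.mk0 (σ t) ((map_ne_zero σ).2 ht)))
    have h2 := ltU_map H (Algebra.ofId ℂ E) σ (Units.mk0 (σ t) ((map_ne_zero σ).2 ht))
    rw [ltU_complex H σ ht] at h2
    have h3 : ((H.l t).map σ).map (algebraMap ℂ E) = ltU H σ (Units.map
        ((algebraMap ℂ E : ℂ →+* E) : ℂ →* E) (Units.mk0 (σ t) ((map_ne_zero σ).2 ht))) := h2
    rw [h3]
    exact h1
  | one =>
    intro f hf
    rw [Matrix.map_one _ (map_zero _) (map_one _), Matrix.one_mul]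
    exact hf
  | mul x y _ _ hx hy =>
    intro f hf
    have hmul : (x * y).map (algebraMap ℂ E) * g =
        x.map (algebraMap ℂ E) * (y.map (algebraMap ℂ E) * g) := by
      rw [Matrix.map_mul, Matrix.mul_assoc]
    rw [hmul, ← aeval_sbs]
    exact hy _ (by rw [aeval_sbs]; exact hx f hf)

/-- Relations of the generic point are relations of all elements of the group. -/
lemma rel_GG {H : HData ι} {g : Matrix ι ι E} {r : ℕ} (hg : IsGenW H E g r)
    (hst : ∀ γ ∈ GG H, ∀ f : MvPolynomial (ι × ι) ℂ, MvPolynomial.aeval (ent g) f = 0 →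
        MvPolynomial.aeval (ent (γ.map (algebraMap ℂ E) * g)) f = 0)
    {f : MvPolynomial (ι × ι) ℂ} (hf : MvPolynomial.aeval (ent g) f = 0) {γ : Matrix ι ι ℂ}
    (hγ : γ ∈ GG H) : MvPolynomial.aeval (ent γ) f = 0 := by
  have h1 := hst γ hγ f hf
  rw [← aeval_sbs] at h1
  have h2 := hg.sp _ h1
  rw [aeval_sbs, Matrix.mul_one] at h2
  have h3 : γ.map (algebraMap ℂ ℂ) = γ := by
    ext i j; rfl
  rwa [h3] at h2

/-- The polynomials given by the coordinates of the values at an array. -/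
noncomputable def mc {κ : Type} [Fintype κ] [DecidableEq κ] (v : (κ → ι) → ℂ) (i : κ → ι) :
    MvPolynomial (ι × ι) ℂ := (kp κ (gm ℂ ι) *ᵥ fun j => MvPolynomial.C (v j)) i

lemma aeval_mc {R : Type} [CommRing R] [Algebra ℂ R] {κ : Type} [Fintype κ] [DecidableEq κ]
    (h : Matrix ι ι R) (v : (κ → ι) → ℂ) (i : κ → ι) :
    MvPolynomial.aeval (ent h) (mc v i) = (kp κ h *ᵥ fun j => algebraMap ℂ R (v j)) i := by
  rw [mc, Matrix.mulVec, dotProduct, map_sum, Matrix.mulVec, dotProduct]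
  refine Finset.sum_congr rfl fun j _ => ?_
  rw [map_mul, MvPolynomial.aeval_C, kp_apply, map_prod, kp_apply]
  congr 1
  refine Finset.prod_congr rfl fun x _ => ?_
  rw [gm, Matrix.of_apply, MvPolynomial.aeval_X]
  rfl

end Pool.Agent.K6.H94.FG
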