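import Pool.Agent.K6.H94.FG.Desc
import Pool.Agent.N996.BP.Main
import Pool.Agent.Y121.AH.Alg2

/-!
# Hodge structures of bounded level in the cohomology of the powers of a variety

The identity of the Hodge substructures of bounded level of `H(X ^ n)` factors through `H(X ^ N)`.
-/

set_option autoImplicit false
set_option linter.unusedSectionVars false

open CategoryTheory AlgebraicGeometry TensorProduct

universe u

namespace Pool.Agent.K6.H94.FG.Geo

open Module
open Pool.Agent.H914 Pool.Agent.H914.VarClass Pool.Agent.H914.VarClass.Obj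
  Pool.Agent.H914.WeilCohomology
open Pool.Agent.Y133.Half Pool.Agent.Y121.AH Pool.Agent.N996.BP Pool.Agent.N996.BP.Geo

variable {k : Type u} [Field k] {𝒱 : VarClass k} {ops : CycleOps 𝒱}

section Corr

variable {W : WeilCohomology.{u, 0} ops} {A B : 𝒱.Obj}

/-- Every linear map is given by a class. -/
lemma exists_corr (f : W.H A →ₗ[W.K] W.H B) : ∃ c, W.corr c = f := by
  have hinj : Function.Injective (corrL W A B) := by
    rw [← LinearMap.ker_eq_bot, LinearMap.ker_eq_bot']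
    intro c hc
    exact corr_inj hc
  have hdim : Module.finrank W.K (W.H (A.prod B)) =
      Module.finrank W.K (W.H A →ₗ[W.K] W.H B) := by
    have e := LinearEquiv.ofBijective _ (W.kunneth A B)
    rw [← e.finrank_eq, Module.finrank_tensorProduct, Module.finrank_linearMap]
  obtain ⟨τ, hτ⟩ := (LinearMap.injective_iff_surjective_of_finrank_eq_finrank hdim).1 hinj f
  exact ⟨τ, hτ⟩

lemma corr_eq_iff {c d : W.H (A.prod B)} (h : W.corr c = W.corr d) : c = d := by
  have h1 : c - d = 0 := by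
    apply corr_inj (W := W)
    have h2 : W.corr (c - d) = corrL W A B (c - d) := rfl
    rw [h2, map_sub]
    exact sub_eq_zero.2 h
  exact sub_eq_zero.1 h1

end Corr

variable {T : HodgeTheory ops} {A B X Z : 𝒱.Obj}

lemma lop_corr {t : ℂ} (ht : t ≠ 0) (c : (CW T).H (A.prod B)) (x : (CW T).H A) :
    lop T t B ((CW T).corr c x) = (CW T).corr (lop T t _ c) (lop T t A x) := by
  rw [corr_apply, corr_apply, lop_push, lop_mul ht, lop_map]

/-- A class whose operator commutes with the operators `t ^ (p - q)` is a sum of Hodge classes. -/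
lemma inv_of_comm {c : T.W.H (A.prod B)} (h : ∀ t : ℂ, t ≠ 0 → ∀ x,
    (CW T).corr (em T.W ℂ c) (lop T t A x) = lop T t B ((CW T).corr (em T.W ℂ c) x)) :
    Inv T (A.prod B) c := by
  intro t ht
  apply corr_eq_iff (W := CW T)
  apply LinearMap.ext
  intro y
  have h1 : lop T t A (lop T t⁻¹ A y) = y := lop_inv ht y
  calc (CW T).corr (lop T t _ (em T.W ℂ c)) y =
        (CW T).corr (lop T t _ (em T.W ℂ c)) (lop T t A (lop T t⁻¹ A y)) := by rw [h1]
    _ = lop T t B ((CW T).corr (em T.W ℂ c) (lop T t⁻¹ A y)) := (lop_corr ht _ _).symm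
    _ = (CW T).corr (em T.W ℂ c) (lop T t A (lop T t⁻¹ A y)) := (h t ht _).symm
    _ = _ := by rw [h1]

variable {ι : Type} [Fintype ι] [DecidableEq ι] (e : Basis ι T.W.K (T.W.H X))

lemma emb_add (n : ℕ) (z z' : (Fin (n + 1) → ι) → ℂ) : emb e n (z + z') = emb e n z + emb e n z' := by
  rw [emb, emb, emb, ← Finset.sum_add_distrib]
  exact Finset.sum_congr rfl fun w _ => add_smul (cc T (z w)) (cc T (z' w)) _

lemma emb_smul (n : ℕ) (r : ℂ) (z : (Fin (n + 1) → ι) → ℂ) : emb e n (r • z) = cc T r • emb e n z := by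
  rw [emb, emb, Finset.smul_sum]
  exact Finset.sum_congr rfl fun w _ => mul_smul (cc T r) (cc T (z w)) _

lemma emb_zero (n : ℕ) : emb e n 0 = 0 := by
  rw [emb]
  exact Finset.sum_eq_zero fun w _ => zero_smul _ _

lemma emb_sum (n : ℕ) {α : Type*} (s : Finset α) (f : α → (Fin (n + 1) → ι) → ℂ) :
    emb e n (∑ i ∈ s, f i) = ∑ i ∈ s, emb e n (f i) := by
  classical
  induction s using Finset.induction_on with
  | empty => rw [Finset.sum_empty, Finset.sum_empty, emb_zero]
  | insert a s ha ih => rw [Finset.sum_insert ha, Finset.sum_insert ha, emb_add, ih]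

/-- The operator given by a rational matrix. -/
noncomputable def opM {n m : ℕ} (a : Matrix (Fin (n + 1) → ι) (Fin (m + 1) → ι) ℚ) :
    T.W.H (pw X m) →ₗ[T.W.K] T.W.H (pw X n) :=
  (wb e m).constr T.W.K fun w => cls e n fun v => a v w

lemma opM_wb {n m : ℕ} (a : Matrix (Fin (n + 1) → ι) (Fin (m + 1) → ι) ℚ)
    (w : Fin (m + 1) → ι) : opM e a (wb e m w) = cls e n fun v => a v w := by
  rw [opM, Basis.constr_basis]

lemma opM_cls {n m : ℕ} (a : Matrix (Fin (n + 1) → ι) (Fin (m + 1) → ι) ℚ)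
    (y : (Fin (m + 1) → ι) → ℚ) : opM e a (cls e m y) = cls e n (Matrix.mulVec a y) := by
  rw [cls, map_sum, cls]
  have h1 : ∀ w, opM e a (((y w : ℚ) : T.W.K) • wb e m w) =
      ∑ v, ((a v w * y w : ℚ) : T.W.K) • wb e n v := by
    intro w
    rw [map_smul, opM_wb, cls, Finset.smul_sum]
    refine Finset.sum_congr rfl fun v _ => ?_
    rw [smul_smul, Rat.cast_mul, mul_comm]
  rw [Finset.sum_congr rfl fun w _ => h1 w, Finset.sum_comm]
  refine Finset.sum_congr rfl fun v _ => ?_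
  rw [← Finset.sum_smul, Matrix.mulVec, dotProduct, Rat.cast_sum]

variable {H : HData ι} {hF : DirectSum.IsInternal (Fx T X)}

/-- Equivariant matrices give operators which are sums of Hodge classes. -/
lemma opM_mem (hH : ∀ t : ℂ, t ≠ 0 → H.l t = mG hF e (fun k => t ^ k)) {n m : ℕ}
    {a : Matrix (Fin (n + 1) → ι) (Fin (m + 1) → ι) ℚ}
    (ha : a ∈ ComQ H (Fin (n + 1)) (Fin (m + 1))) :
    opM e a ∈ (hodgePred T).sys.Op (pw X m) (pw X n) := by
  obtain ⟨c, hc⟩ := exists_corr (W := T.W) (opM e a)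
  have hemb : ∀ z, (CW T).corr (em T.W ℂ c) (emb e m z) = emb e n (Matrix.mulVec (cQ a) z) := by
    intro z
    rw [emb, map_sum, emb]
    have h1 : ∀ w, (CW T).corr (em T.W ℂ c) (cc T (z w) • em T.W ℂ (wb e m w)) =
        ∑ v, cc T (cQ a v w * z w) • em T.W ℂ (wb e n v) := by
      intro w
      rw [map_smul, em_corr, hc, opM_wb, em_cls, emb, Finset.smul_sum]
      refine Finset.sum_congr rfl fun v _ => ?_
      rw [smul_smul, mul_comm]
      rfl
    rw [Finset.sum_congr rfl fun w _ => h1 w, Finset.sum_comm]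
    refine Finset.sum_congr rfl fun v _ => ?_
    rw [← Finset.sum_smul]
    rfl
  have h2 : Inv T ((pw X m).prod (pw X n)) c := by
    apply inv_of_comm
    intro t ht x
    obtain ⟨z, rfl⟩ := emb_surj e m x
    rw [lop_emb e hH ht, hemb, hemb, lop_emb e hH ht, Matrix.mulVec_mulVec, Matrix.mulVec_mulVec,
      ha t ht]
  rw [← hc]
  exact Sys.Op.corr (inv_iff.1 h2)

variable (T) in
/-- The rational subspace `L` is a Hodge substructure: the operators `t ^ (p - q)` preserve it. -/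
def Stab (Y : 𝒱.Obj) (L : Submodule T.W.K (T.W.H Y)) : Prop :=
  ∀ x ∈ L, ∀ t : ℂ, t ≠ 0 → lop T t Y (em T.W ℂ x) ∈
    Submodule.span (CW T).K {y | ∃ u ∈ L, y = em T.W ℂ u}

variable (T) in
/-- The weights of the operators on the class are between `-w` and `w`. -/
def Wts (Y : 𝒱.Obj) (w : ℕ) (x : (CW T).H Y) : Prop :=
  ∃ c : ℤ → (CW T).H Y, ∀ t : ℂ, t ≠ 0 →
    lop T t Y x = ∑ k ∈ Finset.Icc (-w : ℤ) w, (cc T t) ^ k • c k

/-- Classes in a Hodge substructure of bounded level have coordinates of bounded level. -/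
lemma lv_cls (hH : ∀ t : ℂ, t ≠ 0 → H.l t = mG hF e (fun k => t ^ k)) {n w : ℕ}
    {L : Submodule T.W.K (T.W.H (pw X n))} (h1 : Stab T (pw X n) L)
    (h2 : ∀ x ∈ L, Wts T (pw X n) w (em T.W ℂ x)) {y : (Fin (n + 1) → ι) → ℚ}
    (hy : cls e n y ∈ L) : ca y ∈ Lv H w (Fin (n + 1)) := by
  refine lv_of (s := {y | cls e n y ∈ L}) ?_ ?_ hy
  · intro y hy t ht
    have key : ∀ z' ∈ Submodule.span (CW T).K {y | ∃ u ∈ L, y = em T.W ℂ u},
        ∃ z ∈ Submodule.span ℂ {z | ∃ u ∈ {y | cls e n y ∈ L}, z = ca u}, emb e n z = z' := by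
      intro z' hz'
      induction hz' using Submodule.span_induction with
      | mem x hx =>
        obtain ⟨u, hu, rfl⟩ := hx
        obtain ⟨v, rfl⟩ := cls_surj e n u
        exact ⟨ca v, Submodule.subset_span ⟨v, hu, rfl⟩, (em_cls e n v).symm⟩
      | zero => exact ⟨0, Submodule.zero_mem _, emb_zero e n⟩
      | add a b _ _ ha hb =>
        obtain ⟨z, hz, rfl⟩ := ha
        obtain ⟨z', hz', rfl⟩ := hb
        exact ⟨z + z', Submodule.add_mem _ hz hz', emb_add e n _ _⟩
      | smul r a _ ha =>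
        obtain ⟨z, hz, rfl⟩ := ha
        exact ⟨(show ℂ from r) • z, Submodule.smul_mem _ _ hz, emb_smul e n _ _⟩
    have h3 := h1 _ hy t ht
    rw [em_cls, lop_emb e hH ht] at h3
    obtain ⟨z, hz, hzz⟩ := key _ h3
    rw [← emb_inj e n hzz]
    exact hz
  · intro y hy
    obtain ⟨c, hc⟩ := h2 _ hy
    choose d hd using fun k => emb_surj e n (c k)
    refine ⟨d, fun t ht => emb_inj e n ?_⟩
    have h3 := hc t ht
    rw [em_cls, lop_emb e hH ht] at h3
    rw [h3, emb_sum]
    refine Finset.sum_congr rfl fun k _ => ?_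
    rw [emb_smul, hd]
    congr 1

/-- **The identity of the Hodge substructures of bounded level of the cohomology of the powers.** -/
theorem op_id {ψ : LinearMap.BilinForm T.W.K (T.W.H X)}
    (hψ : IsPHS (tauT T) (Fx T X) ψ X.dim) (w : ℕ) : ∃ N₀ : ℕ, ∀ N, N₀ ≤ N → ∀ n, N ≤ n →
    ∃ (r : ℕ) (a : Fin r → T.W.H (pw X N) →ₗ[T.W.K] T.W.H (pw X n))
      (b : Fin r → T.W.H (pw X n) →ₗ[T.W.K] T.W.H (pw X N)),
      (∀ i, a i ∈ (hodgePred T).sys.Op (pw X N) (pw X n)) ∧
      (∀ i, b i ∈ (hodgePred T).sys.Op (pw X n) (pw X N)) ∧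
      ∀ L : Submodule T.W.K (T.W.H (pw X n)), Stab T (pw X n) L →
        (∀ x ∈ L, Wts T (pw X n) w (em T.W ℂ x)) → ∀ x ∈ L, ∑ i, a i (b i x) = x := by
  classical
  rcases subsingleton_or_nontrivial (T.W.H X) with hs | hs
  · refine ⟨0, fun N _ n _ => ⟨0, fun _ => 0, fun _ => 0, fun i => i.elim0, fun i => i.elim0,
      fun L _ _ x _ => ?_⟩⟩
    have h1 : Subsingleton (T.W.H (pw X n)) := by
      have h2 : finrank T.W.K (T.W.H (pw X n)) = 0 := by
        rw [finrank_pw, finrank_zero_of_subsingleton, zero_pow (Nat.succ_ne_zero n)]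
      exact finrank_zero_iff.1 h2
    exact Subsingleton.elim _ _
  obtain ⟨ι, _, _, e, o, deg, heo, hdeg⟩ := exists_ubasis T.W X
  have ho : (1 : ℂ) ⊗ₜ[T.W.K] e o ∈ Fx T X (0, 0) := by
    rw [heo]
    exact (isHodge_one (T := T) (X := X)).2
  obtain ⟨H, hHo, hHw, hH⟩ := hψ.exists_hdata e o ho
  obtain ⟨N₀, h⟩ := exists_idQ H w
  refine ⟨N₀, fun N hN n hn => ?_⟩
  obtain ⟨r, a, b, ha, hb, hab⟩ := h (N + 1) (by omega) (n + 1) (by omega)
  refine ⟨r, fun i => opM e (a i), fun i => opM e (b i), fun i => opM_mem e hH (ha i),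
    fun i => opM_mem e hH (hb i), fun L h1 h2 x hx => ?_⟩
  obtain ⟨y, rfl⟩ := cls_surj e n x
  have h3 := hab y (lv_cls e hH h1 h2 hx)
  have h4 : ∀ i, opM e (a i) (opM e (b i) (cls e n y)) =
      cls e n (Matrix.mulVec (a i) (Matrix.mulVec (b i) y)) := fun i => by
    rw [opM_cls, opM_cls]
  rw [Finset.sum_congr rfl fun i _ => h4 i]
  conv_rhs => rw [← h3]
  have h5 : ∀ (s : Finset (Fin r)) (f : Fin r → (Fin (n + 1) → ι) → ℚ),
      cls e n (∑ i ∈ s, f i) = ∑ i ∈ s, cls e n (f i) := fun s f => clw_sum (W := T.W) e n s f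
  rw [h5]

end Pool.Agent.K6.H94.FG.Geo
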