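import Pool.Agent.K6.H94.FG.Niv

/-!
# The generalized Hodge conjecture in bounded level for the products of powers
-/

set_option autoImplicit false
set_option linter.unusedSectionVars false

open CategoryTheory AlgebraicGeometry TensorProduct

universe u

namespace Pool.Agent.K6.H94.FG.Geo

open Module
open Pool.Agent.H914 Pool.Agent.H914.VarClass Pool.Agent.H914.VarClass.Obj
  Pool.Agent.H914.WeilCohomology
open Pool.Agent.Y133.Half Pool.Agent.Y121.AH Pool.Agent.N996.BP Pool.Agent.N996.BP.Geo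
open Pool.Agent.H281R3.HT Pool.Agent.W536.RR

variable {k : Type u} [Field k] {𝒱 : VarClass k} {ops : CycleOps 𝒱} {T : HodgeTheory ops}
  {X Y Z A B C : 𝒱.Obj}

/-- The complex subspace. -/
noncomputable def cs (V : Submodule T.W.K (T.W.H Y)) : Submodule (CW T).K ((CW T).H Y) :=
  Submodule.span (CW T).K {y | ∃ u ∈ V, y = em T.W ℂ u}

/-- Hodge substructures. -/
def SubH (V : Submodule T.W.K (T.W.H Y)) : Prop := cs V ≤ ⨆ r : ℤ × ℤ, cs V ⊓ T.pq Y r.1 r.2

/-- The level. -/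
def LevH (V : Submodule T.W.K (T.W.H Y)) (l : ℤ) : Prop :=
  ∀ p q : ℤ, cs V ⊓ T.pq Y p q ≠ ⊥ → |p - q| ≤ l

lemma coeff_cw {Y : 𝒱.Obj} (S : Submodule (CW T).K ((CW T).H Y)) (w : ℕ) (c : ℤ → (CW T).H Y)
    (h : ∀ t : ℂ, t ≠ 0 → ∑ k ∈ Finset.Icc (-w : ℤ) w, (cc T t) ^ k • c k ∈ S) :
    ∀ k ∈ Finset.Icc (-w : ℤ) w, c k ∈ S :=
  coeff_mem (V := ℂ ⊗[T.W.K] T.W.H Y) S w c h

variable (T) in
/-- The component of weight `k`. -/
noncomputable def pik (Y : 𝒱.Obj) (k : ℤ) : Module.End (CW T).K ((CW T).H Y) :=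
  dia (isInternal T Y) fun r => if r.1 - r.2 = k then 1 else 0

lemma pik_pq {p q k : ℤ} {x : (CW T).H Y} (hx : x ∈ T.pq Y p q) :
    pik T Y k x = if p - q = k then x else 0 := by
  have h1 := dia_apply (isInternal T Y) (fun r => if r.1 - r.2 = k then (1 : (CW T).K) else 0)
    (i := (p, q)) hx
  rw [pik, h1]
  simp only
  split_ifs
  · rw [one_smul]
  · rw [zero_smul]

lemma exists_wt (y : (CW T).H Y) : ∃ w : ℕ, ∀ w' : ℕ, w ≤ w' → ∀ t : ℂ, t ≠ 0 →
    lop T t Y y = ∑ k ∈ Finset.Icc (-w' : ℤ) w', (cc T t) ^ k • pik T Y k y := by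
  refine pq_ind T (p := fun y => ∃ w : ℕ, ∀ w' : ℕ, w ≤ w' → ∀ t : ℂ, t ≠ 0 →
    lop T t Y y = ∑ k ∈ Finset.Icc (-w' : ℤ) w', (cc T t) ^ k • pik T Y k y) ?_ ?_ ?_ y
  · intro p q x hx
    refine ⟨(p - q).natAbs, fun w' hw t _ => ?_⟩
    rw [lop_pq hx, Finset.sum_eq_single (p - q)]
    · rw [pik_pq hx, if_pos rfl]
    · intro j _ hj
      rw [pik_pq hx, if_neg (Ne.symm hj), smul_zero]
    · intro hn
      exfalso
      apply hn
      rw [Finset.mem_Icc]
      omega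
  · rintro a b ⟨w, hw⟩ ⟨w', hw'⟩
    refine ⟨max w w', fun m hm t ht => ?_⟩
    rw [map_add, hw m (le_trans (le_max_left _ _) hm) t ht,
      hw' m (le_trans (le_max_right _ _) hm) t ht, ← Finset.sum_add_distrib]
    exact Finset.sum_congr rfl fun k _ => by rw [map_add, smul_add]
  · exact ⟨0, fun w' _ t _ => by simp only [map_zero, smul_zero, Finset.sum_const_zero]⟩

lemma SubH.stab {V : Submodule T.W.K (T.W.H Y)} (h : SubH V) : Stab T Y V := by
  intro x hx t _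
  have h1 : em T.W ℂ x ∈ ⨆ r : ℤ × ℤ, cs V ⊓ T.pq Y r.1 r.2 :=
    h (Submodule.subset_span ⟨x, hx, rfl⟩)
  refine Submodule.iSup_induction (fun r : ℤ × ℤ => cs V ⊓ T.pq Y r.1 r.2)
    (motive := fun y => lop T t Y y ∈ cs V) h1 ?_ ?_ ?_
  · intro r y hy
    rw [lop_pq hy.2]
    exact Submodule.smul_mem _ _ hy.1
  · rw [map_zero]; exact Submodule.zero_mem _
  · intro a b ha hb; rw [map_add]; exact Submodule.add_mem _ ha hb

lemma SubH.wts {V : Submodule T.W.K (T.W.H Y)} (h : SubH V) {l : ℕ} (hl : LevH V l) :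
    ∀ x ∈ V, Wts T Y l (em T.W ℂ x) := by
  intro x hx
  have h1 : em T.W ℂ x ∈ ⨆ r : ℤ × ℤ, cs V ⊓ T.pq Y r.1 r.2 :=
    h (Submodule.subset_span ⟨x, hx, rfl⟩)
  refine Submodule.iSup_induction (fun r : ℤ × ℤ => cs V ⊓ T.pq Y r.1 r.2)
    (motive := fun y => Wts T Y l y) h1 ?_ Wts.zero (fun _ _ => Wts.add)
  intro r y hy
  by_cases h0 : y = 0
  · rw [h0]; exact Wts.zero
  · have h2 := hl r.1 r.2 ((Submodule.ne_bot_iff _).2 ⟨y, hy, h0⟩)
    rw [abs_le] at h2
    refine ⟨fun k => if k = r.1 - r.2 then y else 0, fun t _ => ?_⟩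
    rw [lop_pq hy.2, Finset.sum_eq_single (r.1 - r.2)]
    · simp only [if_true]
    · intro j _ hj
      simp only [hj, if_false, smul_zero]
    · intro hn
      exact absurd (Finset.mem_Icc.2 h2) hn

lemma SubH.eq_zero {V : Submodule T.W.K (T.W.H Y)} (h : SubH V)
    (h1 : ∀ r : ℤ × ℤ, cs V ⊓ T.pq Y r.1 r.2 = ⊥) {x : T.W.H Y} (hx : x ∈ V) : x = 0 := by
  have h2 : em T.W ℂ x ∈ ⨆ r : ℤ × ℤ, cs V ⊓ T.pq Y r.1 r.2 :=
    h (Submodule.subset_span ⟨x, hx, rfl⟩)
  rw [iSup_congr h1, iSup_bot, Submodule.mem_bot] at h2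
  exact em_injective h2

lemma stab_cs {V : Submodule T.W.K (T.W.H Y)} (h : Stab T Y V) {t : ℂ} (ht : t ≠ 0)
    {y : (CW T).H Y} (hy : y ∈ cs V) : lop T t Y y ∈ cs V := by
  rw [cs] at hy
  induction hy using Submodule.span_induction with
  | mem y hy => obtain ⟨u, hu, rfl⟩ := hy; exact h u hu t ht
  | zero => rw [map_zero]; exact Submodule.zero_mem _
  | add a b _ _ ha hb => rw [map_add]; exact Submodule.add_mem _ ha hb
  | smul r a _ ha => rw [map_smul]; exact Submodule.smul_mem _ _ ha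

lemma subH_of {V : Submodule T.W.K (T.W.H Y)} {i : ℕ} (hV : V ≤ T.W.gr Y i) (h : Stab T Y V) :
    SubH V := by
  rw [SubH]
  conv_lhs => rw [cs]
  rw [Submodule.span_le]
  rintro _ ⟨x, hx, rfl⟩
  obtain ⟨w, hw⟩ := exists_wt (em T.W ℂ x)
  have hw' := hw w le_rfl
  have h1 := coeff_cw (cs V) w (fun k => pik T Y k (em T.W ℂ x)) (fun t ht => by
    have h2 := stab_cs h ht (Submodule.subset_span ⟨x, hx, rfl⟩)
    rw [hw' t ht] at h2
    exact h2)
  have h2 : ∀ k : ℤ, pik T Y k (em T.W ℂ x) ∈ T.pq Y ((i + k) / 2) ((i - k) / 2) := by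
    intro k
    refine Submodule.iSup_induction (fun r : {r : ℤ × ℤ // r.1 + r.2 = i} => T.pq Y r.1.1 r.1.2)
      (motive := fun y => pik T Y k y ∈ T.pq Y ((i + k) / 2) ((i - k) / 2)) (T.dec.span (hV hx))
        ?_ ?_ ?_
    · rintro ⟨⟨p, q⟩, hr⟩ y hy
      have hr' : p + q = i := hr
      rw [pik_pq (p := p) (q := q) hy]
      split_ifs with hk
      · have e1 : ((i : ℤ) + k) / 2 = p := by omega
        have e2 : ((i : ℤ) - k) / 2 = q := by omega
        rw [e1, e2]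
        exact hy
      · exact Submodule.zero_mem _
    · rw [map_zero]; exact Submodule.zero_mem _
    · intro a b ha hb; rw [map_add]; exact Submodule.add_mem _ ha hb
  have h3 : em T.W ℂ x = ∑ k ∈ Finset.Icc (-w : ℤ) w, pik T Y k (em T.W ℂ x) := by
    have h4 := hw' 1 one_ne_zero
    rw [lop_id] at h4
    have h5 : cc T 1 = 1 := rfl
    simp only [h5, one_zpow, one_smul] at h4
    exact h4
  change em T.W ℂ x ∈ ⨆ r : ℤ × ℤ, cs V ⊓ T.pq Y r.1 r.2
  rw [h3]
  refine Submodule.sum_mem _ fun k hk => ?_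
  exact (le_iSup (fun r : ℤ × ℤ => cs V ⊓ T.pq Y r.1 r.2) (((i : ℤ) + k) / 2, ((i : ℤ) - k) / 2))
    ⟨h1 k hk, h2 k⟩

lemma levH_of {V : Submodule T.W.K (T.W.H Y)} {l : ℕ} (h : ∀ x ∈ V, Wts T Y l (em T.W ℂ x)) :
    LevH V l := by
  intro p q hne
  obtain ⟨y, ⟨hy, hyp⟩, hy0⟩ := (Submodule.ne_bot_iff _).1 hne
  have h1 : Wts T Y l y := by
    rw [cs] at hy
    clear hyp hy0
    induction hy using Submodule.span_induction with
    | mem y hy => obtain ⟨u, hu, rfl⟩ := hy; exact h u hu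
    | zero => exact Wts.zero
    | add a b _ _ ha hb => exact ha.add hb
    | smul r a _ ha => exact ha.smul r
  obtain ⟨c, hc⟩ := h1
  by_contra hcon
  have hcon' : ¬ (p - q ∈ Finset.Icc (-l : ℤ) l) := by
    rw [Finset.mem_Icc, ← abs_le]
    exact hcon
  apply hy0
  obtain ⟨w, hw⟩ : ∃ w : ℕ, w = max l (p - q).natAbs := ⟨_, rfl⟩
  have hlw : l ≤ w := by rw [hw]; exact le_max_left _ _
  have hpw : (p - q).natAbs ≤ w := by rw [hw]; exact le_max_right _ _
  have hmem : p - q ∈ Finset.Icc (-w : ℤ) w := by rw [Finset.mem_Icc]; omega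
  have hsub : Finset.Icc (-l : ℤ) l ⊆ Finset.Icc (-w : ℤ) w := by
    intro k hk
    rw [Finset.mem_Icc] at hk ⊢
    omega
  have h2 := coeff_cw (T := T) (Y := Y) ⊥ w
    (fun k => (if k ∈ Finset.Icc (-l : ℤ) l then c k else 0) - if k = p - q then y else 0)
    (fun t ht => by
      rw [Submodule.mem_bot]
      simp only [smul_sub, Finset.sum_sub_distrib, smul_ite, smul_zero]
      rw [Finset.sum_ite_eq' _ (p - q), if_pos hmem, ← Finset.sum_filter,
        Finset.filter_mem_eq_inter, Finset.inter_eq_right.2 hsub, ← hc t ht, lop_pq hyp, sub_self])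
    (p - q) hmem
  simp only [hcon', if_false, if_true, zero_sub, Submodule.mem_bot, neg_eq_zero] at h2
  exact h2

variable (T) in
/-- The generalized Hodge conjecture in the levels up to `v`. -/
def GH (v : ℕ) (X : 𝒱.Obj) : Prop :=
  ∀ (l j : ℕ) (V : Submodule T.W.K (T.W.H X)), l ≤ v → V ≤ T.W.gr X (l + 2 * j) → Stab T X V →
    (∀ x ∈ V, Wts T X l (em T.W ℂ x)) → V ≤ cnv T.W X j

/-- The effect of an operation of degree `2 s`. -/
lemma core {s : ℤ} {v : ℕ} (hB : GH T v B) (f : T.W.H A →ₗ[T.W.K] T.W.H B)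
    (fC : (CW T).H A →ₗ[(CW T).K] (CW T).H B) (hem : ∀ x, fC (em T.W ℂ x) = em T.W ℂ (f x))
    (hlop : ∀ t : ℂ, t ≠ 0 → ∀ x, lop T t B (fC x) = fC (lop T t A x))
    (hgr : ∀ (i : ℕ), ∀ x ∈ T.W.gr A i, f x ∈ grZ (T.W.gr B) (i + 2 * s)) {l j : ℕ} (hl : l ≤ v)
    {V : Submodule T.W.K (T.W.H A)} (hV : V ≤ T.W.gr A (l + 2 * j)) (h1 : Stab T A V)
    (h2 : ∀ x ∈ V, Wts T A l (em T.W ℂ x)) {x : T.W.H A} (hx : x ∈ V) :
    ∃ m : ℕ, (j : ℤ) + s ≤ m ∧ f x ∈ cnv T.W B m := by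
  by_cases hs : 0 ≤ (j : ℤ) + s
  · obtain ⟨m, hm⟩ := Int.eq_ofNat_of_zero_le hs
    refine ⟨m, hm.le, hB l m (V.map f) hl ?_ ?_ ?_ (Submodule.mem_map_of_mem hx)⟩
    · rw [Submodule.map_le_iff_le_comap]
      intro y hy
      have h3 := hgr _ y (hV hy)
      have h4 : (((l + 2 * j : ℕ) : ℤ) + 2 * s) = ((l + 2 * m : ℕ) : ℤ) := by
        push_cast
        omega
      rw [h4, grZ_natCast] at h3
      exact h3
    · intro y hy t ht
      obtain ⟨z, hz, rfl⟩ := Submodule.mem_map.1 hy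
      rw [← hem, hlop t ht]
      have h3 := h1 z hz t ht
      generalize lop T t A (em T.W ℂ z) = Y' at h3
      induction h3 using Submodule.span_induction with
      | mem a ha =>
        obtain ⟨u, hu, rfl⟩ := ha
        exact Submodule.subset_span ⟨f u, Submodule.mem_map_of_mem hu, hem u⟩
      | zero => rw [map_zero]; exact Submodule.zero_mem _
      | add a b _ _ ha hb => rw [map_add]; exact Submodule.add_mem _ ha hb
      | smul r a _ ha => rw [map_smul]; exact Submodule.smul_mem _ _ ha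
    · intro y hy
      obtain ⟨z, hz, rfl⟩ := Submodule.mem_map.1 hy
      obtain ⟨c, hc⟩ := h2 z hz
      refine ⟨fun k => fC (c k), fun t ht => ?_⟩
      rw [← hem, hlop t ht, hc t ht, map_sum]
      exact Finset.sum_congr rfl fun k _ => by rw [map_smul]
  · exact ⟨0, by push_cast; omega, niv_zero _⟩

lemma core_cmp {v : ℕ} (hC : GH T v (A.prod C)) {c : ℕ} {z : (B.prod C).Cycles}
    (hz : (B.prod C).IsCyc c z) {l j : ℕ} (hl : l ≤ v) {V : Submodule T.W.K (T.W.H (A.prod B))}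
    (hV : V ≤ T.W.gr _ (l + 2 * j)) (h1 : Stab T _ V)
    (h2 : ∀ x ∈ V, Wts T _ l (em T.W ℂ x)) {x : T.W.H (A.prod B)} (hx : x ∈ V) :
    ∃ m : ℕ, (j : ℤ) + ((c : ℤ) - B.dim) ≤ m ∧
      cmp x (T.W.cl _ z) ∈ cnv T.W (A.prod C) m := by
  refine core (A := A.prod B) (B := A.prod C) hC (cmpR T.W A (T.W.cl _ z))
    (cmpR (CW T) A (em T.W ℂ (T.W.cl _ z))) ?_ ?_ (fun i x hx => cmp_gr hx hz) hl hV h1 h2 hx
  · intro x
    rw [cmpR_apply, cmpR_apply, cmp, cmp, em_map, em_map, ← em_mul, em_push]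
  · intro t ht x
    rw [cmpR_apply, cmpR_apply, cmp, cmp, lop_push, lop_mul ht, lop_map, lop_map,
      lop_hodge (IsHodge.cl hz)]

lemma core_corr {v : ℕ} (hB : GH T v B) {c : ℕ} {z : (A.prod B).Cycles}
    (hz : (A.prod B).IsCyc c z) {l j : ℕ} (hl : l ≤ v) {V : Submodule T.W.K (T.W.H A)}
    (hV : V ≤ T.W.gr _ (l + 2 * j)) (h1 : Stab T _ V)
    (h2 : ∀ x ∈ V, Wts T _ l (em T.W ℂ x)) {x : T.W.H A} (hx : x ∈ V) :
    ∃ m : ℕ, (j : ℤ) + ((c : ℤ) - A.dim) ≤ m ∧ T.W.corr (T.W.cl _ z) x ∈ cnv T.W B m := by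
  refine core hB (T.W.corr (T.W.cl _ z)) ((CW T).corr (em T.W ℂ (T.W.cl _ z)))
    (fun x => em_corr _ _) ?_ (fun i x hx => corr_gr hx hz) hl hV h1 h2 hx
  intro t ht x
  rw [lop_corr ht, lop_hodge (IsHodge.cl hz)]

lemma core_map {v : ℕ} (hB : GH T v B) (g : B ⟶ A) {l j : ℕ} (hl : l ≤ v)
    {V : Submodule T.W.K (T.W.H A)} (hV : V ≤ T.W.gr _ (l + 2 * j)) (h1 : Stab T _ V)
    (h2 : ∀ x ∈ V, Wts T _ l (em T.W ℂ x)) {x : T.W.H A} (hx : x ∈ V) :
    T.W.map g x ∈ cnv T.W B j := by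
  obtain ⟨m, hm, h3⟩ := core (s := 0) hB (T.W.map g).toLinearMap ((CW T).map g).toLinearMap
    (fun x => em_map g x) (fun t _ x => lop_map g x) (fun i x hx => by
      rw [mul_zero, add_zero, grZ_natCast]
      exact T.W.map_mem g hx) hl hV h1 h2 hx
  exact niv_anti (by omega) h3

/-- The Hodge conjecture follows from the generalized Hodge conjecture in level zero. -/
lemma GH.hodge {v : ℕ} (h : GH T v X) : (hodgePred T).sys.C X ≤ (algSys T.W).C X := by
  intro c hc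
  refine ClassPred.sp_ind (Q := hodgePred T) (q := fun c => c ∈ (algSys T.W).C X) ?_ ?_ ?_ hc
  · intro j x hx
    have hx' : IsHodge T X j x := hx
    refine niv_alg (h 0 j (Submodule.span T.W.K {x}) (Nat.zero_le _) ?_ ?_ ?_
      (Submodule.mem_span_singleton_self x)) hx'.1
    · rw [Submodule.span_le, Set.singleton_subset_iff, zero_add]
      exact hx'.1
    · intro y hy t ht
      obtain ⟨r, rfl⟩ := Submodule.mem_span_singleton.1 hy
      rw [em_smul, map_smul, lop_hodge hx', ← em_smul]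
      exact Submodule.subset_span ⟨r • x, hy, rfl⟩
    · intro y hy
      obtain ⟨r, rfl⟩ := Submodule.mem_span_singleton.1 hy
      refine ⟨fun _ => em T.W ℂ (r • x), fun t _ => ?_⟩
      rw [em_smul, map_smul, lop_hodge hx']
      simp
  · exact Submodule.zero_mem _
  · intro a b ha hb; exact Submodule.add_mem _ ha hb

/-- Two operations whose degrees add up to zero. -/
lemma two_steps {P : 𝒱.Obj} {i : ℕ} {d : ℤ} {y : T.W.H P} (hy : y ∈ grZ (T.W.gr P) (i + 2 * d))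
    {j : ℕ} (h : d = 0 → y ∈ cnv T.W P j) :
    proj (T.W.isInternal P) i y ∈ cnv T.W P j := by
  rw [proj_grZ hy]
  split_ifs with h1
  · exact h (by omega)
  · exact Submodule.zero_mem _

/-- **The generalized Hodge conjecture in bounded level.** -/
theorem gh_main {ψ : LinearMap.BilinForm T.W.K (T.W.H X)}
    (hψ : IsPHS (tauT T) (Fx T X) ψ X.dim) (v w : ℕ) : ∃ N : ℕ, ∀ Z : 𝒱.Obj, LevLE T Z w →
    GH T v (Z.prod (pw X N)) → ∀ n, GH T v (Z.prod (pw X n)) := by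
  obtain ⟨N₀, h⟩ := cmp_id hψ v w
  refine ⟨max N₀ (expo (finrank T.W.K (T.W.H X)) - 1), fun Z hZ hN n l j V hl hV hst hw x hx => ?_⟩
  obtain ⟨N, hNdef⟩ : ∃ N, N = max N₀ (expo (finrank T.W.K (T.W.H X)) - 1) := ⟨_, rfl⟩
  rw [← hNdef] at hN
  rcases subsingleton_or_nontrivial (T.W.H Z) with hs | hs
  · have h1 : Subsingleton (T.W.H (Z.prod (pw X n))) := by
      have h2 : finrank T.W.K (T.W.H (Z.prod (pw X n))) = 0 := by
        rw [Pool.Agent.Y133.Half.finrank_prod, finrank_zero_of_subsingleton, zero_mul]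
      exact finrank_zero_iff.1 h2
    rw [Subsingleton.elim x 0]
    exact Submodule.zero_mem _
  by_cases hn : N ≤ n
  · have h1 := factor (S := algSys T.W) Z (pw X N) hN.hodge
    have h2 : ∀ m, (hodgePred T).sys.C (pw X m) ≤ (algSys T.W).C (pw X m) :=
      bounded hψ (algSys T.W) (fun Y => ClassPred.alg_le (Q := hodgePred T))
        (mono_pw (S' := (hodgePred T).sys)
          (show expo (finrank T.W.K (T.W.H X)) - 1 ≤ N by rw [hNdef]; exact le_max_right _ _) h1)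
    obtain ⟨r, α, β, hα, hβ, hid⟩ := h N (by rw [hNdef]; exact le_max_left _ _) n hn
    have hwv : ∀ x ∈ V, Wts T (Z.prod (pw X n)) v (em T.W ℂ x) := by
      intro x hx
      obtain ⟨c, hc⟩ := hw x hx
      refine ⟨fun k => if k ∈ Finset.Icc (-l : ℤ) l then c k else 0, fun t ht => ?_⟩
      have hsub : Finset.Icc (-l : ℤ) l ⊆ Finset.Icc (-v : ℤ) v := by
        intro k hk
        rw [Finset.mem_Icc] at hk ⊢
        omega
      simp only [smul_ite, smul_zero]
      rw [hc t ht, ← Finset.sum_filter, Finset.filter_mem_eq_inter,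
        Finset.inter_eq_right.2 hsub]
    have h3 := hid Z hZ V hst hwv x hx
    have h4 : x = ∑ i, proj (T.W.isInternal _) (l + 2 * j) (cmp (cmp x (β i)) (α i)) := by
      rw [← map_sum, h3, proj_same (T.W.isInternal _) (hV hx)]
    rw [h4]
    refine Submodule.sum_mem _ fun i _ => ?_
    have hβi := pw_prod (X := X) h2 _ _ (hβ i)
    have hαi := pw_prod (X := X) h2 _ _ (hα i)
    generalize β i = b at hβi
    generalize α i = a at hαi
    refine algSpan_induction (p := fun b => proj (T.W.isInternal _) (l + 2 * j)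
      (cmp (cmp x b) a) ∈ cnv T.W _ j) ?_ ?_ ?_ ?_ hβi
    · rw [cmp_zero, zero_cmp, map_zero]; exact Submodule.zero_mem _
    · intro a' b' ha hb; rw [cmp_add, add_cmp, map_add]; exact Submodule.add_mem _ ha hb
    · intro r a' ha; rw [cmp_smul, smul_cmp, map_smul]; exact Submodule.smul_mem _ _ ha
    intro c z hz
    refine algSpan_induction (p := fun a => proj (T.W.isInternal _) (l + 2 * j)
      (cmp (cmp x (T.W.cl _ z)) a) ∈ cnv T.W _ j) ?_ ?_ ?_ ?_ hαi
    · rw [cmp_zero, map_zero]; exact Submodule.zero_mem _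
    · intro a' b' ha hb; rw [cmp_add, map_add]; exact Submodule.add_mem _ ha hb
    · intro r a' ha; rw [cmp_smul, map_smul]; exact Submodule.smul_mem _ _ ha
    intro c' z' hz'
    have h5 := cmp_gr (hV hx) hz
    obtain ⟨m, hm, h6⟩ := core_cmp hN hz hl hV hst hw hx
    by_cases h0 : 0 ≤ ((l + 2 * j : ℕ) : ℤ) + 2 * ((c : ℤ) - (pw X n).dim)
    · obtain ⟨i', hi'⟩ := Int.eq_ofNat_of_zero_le h0
      rw [hi', grZ_natCast] at h5
      have h7 := cmp_gr h5 hz'
      refine two_steps (d := ((c : ℤ) - (pw X n).dim) + ((c' : ℤ) - (pw X N).dim)) ?_ ?_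
      · have e : (((l + 2 * j : ℕ) : ℤ) + 2 * (((c : ℤ) - (pw X n).dim) +
            ((c' : ℤ) - (pw X N).dim))) = (i' : ℤ) + 2 * ((c' : ℤ) - (pw X N).dim) := by
          have hi2 : ((l + 2 * j : ℕ) : ℤ) + 2 * ((c : ℤ) - (pw X n).dim) = (i' : ℤ) := hi'
          rw [← hi2]
          ring
        rw [e]
        exact h7
      · intro hd
        exact niv_cmp hz' h6 (by omega)
    · rw [grZ_of_neg (by omega), Submodule.mem_bot] at h5
      rw [h5, zero_cmp, map_zero]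
      exact Submodule.zero_mem _
  · rw [← map_upp_dn Z X (show n ≤ N by omega) x]
    exact niv_map _ (core_map hN _ hl hV hst hw hx)

/-- Varieties whose cohomology comes from other varieties by algebraic correspondences. -/
theorem gh_from {v : ℕ} {r : ℕ} {P : Fin r → 𝒱.Obj} (hP : ∀ i, GH T v (P i)) {a b : Fin r → ℕ}
    {u : ∀ i, (Y.prod (P i)).Cycles} {u' : ∀ i, ((P i).prod Y).Cycles}
    (hu : ∀ i, (Y.prod (P i)).IsCyc (a i) (u i)) (hu' : ∀ i, ((P i).prod Y).IsCyc (b i) (u' i))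
    (hid : ∀ y : T.W.H Y, ∑ i, T.W.corr (T.W.cl _ (u' i)) (T.W.corr (T.W.cl _ (u i)) y) = y) :
    GH T v Y := by
  intro l j V hl hV hst hw x hx
  have h4 : x = ∑ i, proj (T.W.isInternal _) (l + 2 * j)
      (T.W.corr (T.W.cl _ (u' i)) (T.W.corr (T.W.cl _ (u i)) x)) := by
    rw [← map_sum, hid, proj_same (T.W.isInternal _) (hV hx)]
  rw [h4]
  refine Submodule.sum_mem _ fun i _ => ?_
  have h5 := corr_gr (hV hx) (hu i)
  obtain ⟨m, hm, h6⟩ := core_corr (hP i) (hu i) hl hV hst hw hx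
  by_cases h0 : 0 ≤ ((l + 2 * j : ℕ) : ℤ) + 2 * ((a i : ℤ) - Y.dim)
  · obtain ⟨i', hi'⟩ := Int.eq_ofNat_of_zero_le h0
    rw [hi', grZ_natCast] at h5
    have h7 := corr_gr h5 (hu' i)
    refine two_steps (d := ((a i : ℤ) - Y.dim) + ((b i : ℤ) - (P i).dim)) ?_ ?_
    · have e : (((l + 2 * j : ℕ) : ℤ) + 2 * (((a i : ℤ) - Y.dim) +
          ((b i : ℤ) - (P i).dim))) = (i' : ℤ) + 2 * ((b i : ℤ) - (P i).dim) := by
        have hi2 : ((l + 2 * j : ℕ) : ℤ) + 2 * ((a i : ℤ) - Y.dim) = (i' : ℤ) := hi'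
        rw [← hi2]
        ring
      rw [e]
      exact h7
    · intro hd
      exact niv_corr (hu' i) h6 (by omega)
  · rw [grZ_of_neg (by omega), Submodule.mem_bot] at h5
    rw [h5, map_zero, map_zero]
    exact Submodule.zero_mem _

end Pool.Agent.K6.H94.FG.Geo
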