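import Pool.Agent.N996.BP.Gen2
import Pool.Agent.N996.BP.Span

/-!
# Arrays of bounded level

`Lv H w κ` is the space of the arrays on whose orbit under the Hodge group all the conjugates of the
cocharacter have weights between `-w` and `w`.
-/

set_option autoImplicit false
set_option linter.unusedSectionVars false

namespace Pool.Agent.K6.H94.FG

open Matrix Pool.Agent.N996.BP

/-- Laurent polynomials with values in a subspace have their coefficients in the subspace. -/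
lemma coeff_mem {V : Type*} [AddCommGroup V] [Module ℂ V] (S : Submodule ℂ V) (w : ℕ) (c : ℤ → V)
    (h : ∀ t : ℂ, t ≠ 0 → ∑ k ∈ Finset.Icc (-w : ℤ) w, t ^ k • c k ∈ S) :
    ∀ k ∈ Finset.Icc (-w : ℤ) w, c k ∈ S := by
  intro k hk
  by_contra hn
  obtain ⟨φ, hφ, hS⟩ := Submodule.exists_le_ker_of_notMem hn
  apply hφ
  let P : Polynomial ℂ := ∑ j ∈ Finset.Icc (-w : ℤ) w,
    Polynomial.C (φ (c j)) * Polynomial.X ^ (j + w).toNat
  have hP : P = 0 := by
    apply Polynomial.eq_of_infinite_eval_eq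
    refine Set.Infinite.mono (s := {t : ℂ | t ≠ 0}) ?_ (Set.Finite.infinite_compl
      (Set.finite_singleton (0 : ℂ)))
    intro t ht
    have ht' : t ≠ 0 := ht
    change Polynomial.eval t P = Polynomial.eval t 0
    have h1 : φ (∑ k ∈ Finset.Icc (-w : ℤ) w, t ^ k • c k) = 0 := hS (h t ht)
    rw [map_sum] at h1
    rw [Polynomial.eval_zero, Polynomial.eval_finsetSum]
    calc ∑ j ∈ Finset.Icc (-w : ℤ) w,
          Polynomial.eval t (Polynomial.C (φ (c j)) * Polynomial.X ^ (j + w).toNat) =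
        t ^ w * ∑ j ∈ Finset.Icc (-w : ℤ) w, φ (t ^ j • c j) := by
          rw [Finset.mul_sum]
          refine Finset.sum_congr rfl fun j hj => ?_
          rw [Finset.mem_Icc] at hj
          rw [Polynomial.eval_mul, Polynomial.eval_C, Polynomial.eval_pow, Polynomial.eval_X,
            map_smul, smul_eq_mul, ← mul_assoc, mul_comm]
          congr 1
          rw [← zpow_natCast, ← zpow_natCast, ← zpow_add₀ ht', Int.toNat_of_nonneg (by omega)]
          congr 1
          ring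
      _ = 0 := by rw [h1, mul_zero]
  have h2 := congrArg (fun Q : Polynomial ℂ => Q.coeff (k + w).toNat) hP
  simp only [P, Polynomial.coeff_zero, Polynomial.finsetSum_coeff, Polynomial.coeff_C_mul,
    Polynomial.coeff_X_pow] at h2
  rw [Finset.sum_eq_single k] at h2
  · simpa using h2
  · intro j hj hjk
    rw [Finset.mem_Icc] at hj hk
    rw [if_neg (by omega), mul_zero]
  · intro h; exact absurd hk h

variable {ι : Type} [Fintype ι] [DecidableEq ι] (H : HData ι)

/-- The arrays of level at most `w`. -/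
def Lv (w : ℕ) (κ : Type) [Fintype κ] [DecidableEq κ] : Submodule ℂ ((κ → ι) → ℂ) where
  carrier := {v | ∀ g ∈ GG H, ∀ σ : ℂ ≃+* ℂ, ∃ c : ℤ → (κ → ι) → ℂ, ∀ t : ℂ, t ≠ 0 →
    kp κ ((H.l t).map σ) *ᵥ (kp κ g *ᵥ v) = ∑ k ∈ Finset.Icc (-w : ℤ) w, σ t ^ k • c k}
  add_mem' {a b} ha hb g hg σ := by
    obtain ⟨c, hc⟩ := ha g hg σ
    obtain ⟨d, hd⟩ := hb g hg σ
    refine ⟨fun k => c k + d k, fun t ht => ?_⟩
    rw [Matrix.mulVec_add, Matrix.mulVec_add, hc t ht, hd t ht, ← Finset.sum_add_distrib]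
    exact Finset.sum_congr rfl fun k _ => (smul_add _ _ _).symm
  zero_mem' g _ σ := ⟨fun _ => 0, fun t _ => by simp⟩
  smul_mem' r a ha g hg σ := by
    obtain ⟨c, hc⟩ := ha g hg σ
    refine ⟨fun k => r • c k, fun t ht => ?_⟩
    rw [Matrix.mulVec_smul, Matrix.mulVec_smul, hc t ht, Finset.smul_sum]
    exact Finset.sum_congr rfl fun k _ => smul_comm _ _ _

variable {H} {w : ℕ} {κ : Type} [Fintype κ] [DecidableEq κ]

lemma mem_Lv {v : (κ → ι) → ℂ} : v ∈ Lv H w κ ↔ ∀ g ∈ GG H, ∀ σ : ℂ ≃+* ℂ,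
    ∃ c : ℤ → (κ → ι) → ℂ, ∀ t : ℂ, t ≠ 0 →
    kp κ ((H.l t).map σ) *ᵥ (kp κ g *ᵥ v) = ∑ k ∈ Finset.Icc (-w : ℤ) w, σ t ^ k • c k :=
  Iff.rfl

lemma Lv_GG {v : (κ → ι) → ℂ} (hv : v ∈ Lv H w κ) {g : Matrix ι ι ℂ} (hg : g ∈ GG H) :
    kp κ g *ᵥ v ∈ Lv H w κ := by
  intro g' hg' σ
  obtain ⟨c, hc⟩ := hv (g' * g) (Submonoid.mul_mem _ hg' hg) σ
  refine ⟨c, fun t ht => ?_⟩
  have h1 : kp κ (g' * g) *ᵥ v = kp κ g' *ᵥ (kp κ g *ᵥ v) := by
    rw [kp_mul, Matrix.mulVec_mulVec]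
  rw [← h1]
  exact hc t ht

/-- The components for one of the conjugates of the cocharacter. -/
lemma Lv_dec {v : (κ → ι) → ℂ} (hv : v ∈ Lv H w κ) (σ : ℂ ≃+* ℂ) :
    ∃ c : ℤ → (κ → ι) → ℂ, (∀ k ∈ Finset.Icc (-w : ℤ) w, c k ∈ Lv H w κ) ∧
      ∀ t : ℂ, t ≠ 0 →
        kp κ ((H.l t).map σ) *ᵥ v = ∑ k ∈ Finset.Icc (-w : ℤ) w, σ t ^ k • c k := by
  obtain ⟨c, hc⟩ := hv 1 (Submonoid.one_mem _) σ
  simp only [kp_one, Matrix.one_mulVec] at hc
  refine ⟨c, coeff_mem _ w c fun t ht => ?_, hc⟩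
  have ht' : σ.symm t ≠ 0 := (map_ne_zero σ.symm).2 ht
  have h1 := hc (σ.symm t) ht'
  rw [RingEquiv.apply_symm_apply] at h1
  rw [← h1]
  exact Lv_GG hv (Submonoid.subset_closure ⟨σ, _, ht', rfl⟩)

/-- The components for one of the conjugates of the cocharacter, over all rings. -/
lemma Lv_univ {v : (κ → ι) → ℂ} (hv : v ∈ Lv H w κ) (σ : ℂ ≃+* ℂ) :
    ∃ c : ℤ → (κ → ι) → ℂ, (∀ k ∈ Finset.Icc (-w : ℤ) w, c k ∈ Lv H w κ) ∧
      ∀ (L : Type) [CommRing L] [Algebra ℂ L] (T : Lˣ),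
        kp κ (ltU H σ T) *ᵥ (fun i => algebraMap ℂ L (v i)) =
          ∑ k ∈ Finset.Icc (-w : ℤ) w, ((T ^ k : Lˣ) : L) • (fun i => algebraMap ℂ L (c k i)) := by
  obtain ⟨c, hcL, hc⟩ := Lv_dec hv σ
  refine ⟨c, hcL, fun L _ _ T => ?_⟩
  -- the polynomial matrix
  let M : Matrix ι ι (Polynomial ℂ) := ∑ k ∈ Finset.Icc (-H.w : ℤ) H.w,
    (Polynomial.X ^ (k + H.w).toNat : Polynomial ℂ) • ((H.π k).map σ).map Polynomial.C
  have hM : ∀ {L' : Type} [CommRing L'] [Algebra ℂ L'] (S : L'ˣ),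
      M.map (Polynomial.aeval (S : L')) = ((S : L') ^ H.w) • ltU H σ S := by
    intro L' _ _ S
    rw [ltU, Finset.smul_sum]
    ext i j
    have hMij : M i j = ∑ k ∈ Finset.Icc (-H.w : ℤ) H.w,
        ((Polynomial.X ^ (k + H.w).toNat : Polynomial ℂ) •
          ((H.π k).map σ).map Polynomial.C) i j := Matrix.sum_apply _ _ _ _
    rw [Matrix.map_apply, hMij, Matrix.sum_apply, map_sum]
    refine Finset.sum_congr rfl fun k hk => ?_
    rw [Matrix.smul_apply, Matrix.smul_apply, Matrix.smul_apply, smul_eq_mul, smul_eq_mul,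
      smul_eq_mul, map_mul, map_pow, Polynomial.aeval_X, ← mul_assoc]
    congr 1
    · rw [← Units.val_pow_eq_pow_val, ← Units.val_pow_eq_pow_val, ← Units.val_mul]
      congr 1
      rw [← zpow_natCast, ← zpow_natCast, ← _root_.zpow_add]
      congr 1
      rw [Finset.mem_Icc] at hk
      rw [Int.toNat_of_nonneg (by omega)]
      ring
    · rw [Matrix.map_apply, Matrix.map_apply, Polynomial.aeval_C]
      rfl
  obtain ⟨n, hn⟩ : ∃ n, n = Fintype.card κ := ⟨_, rfl⟩
  have hpow : ∀ {L' : Type} [CommRing L'] (S : L'ˣ), ∀ k ∈ Finset.Icc (-w : ℤ) w,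
      (S : L') ^ (H.w * n) * (S : L') ^ (k + w).toNat =
        (S : L') ^ (H.w * n + w) * ((S ^ k : L'ˣ) : L') := by
    intro L' _ S k hk
    rw [Finset.mem_Icc] at hk
    rw [← Units.val_pow_eq_pow_val, ← Units.val_pow_eq_pow_val, ← Units.val_pow_eq_pow_val,
      ← Units.val_mul, ← Units.val_mul]
    congr 1
    rw [← zpow_natCast, ← zpow_natCast, ← zpow_natCast, ← _root_.zpow_add, ← _root_.zpow_add]
    congr 1
    rw [Int.toNat_of_nonneg (by omega)]
    push_cast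
    ring
  have key : ∀ i, Polynomial.X ^ w * (kp κ M *ᵥ (fun i => Polynomial.C (v i))) i =
      ∑ k ∈ Finset.Icc (-w : ℤ) w,
        Polynomial.X ^ (H.w * n) * Polynomial.X ^ (k + w).toNat * Polynomial.C (c k i) := by
    intro i
    apply Polynomial.eq_of_infinite_eval_eq
    refine Set.Infinite.mono (s := {t : ℂ | t ≠ 0}) ?_ (Set.Finite.infinite_compl
      (Set.finite_singleton (0 : ℂ)))
    intro t ht
    have ht0 : t ≠ 0 := ht
    have ht' : σ.symm t ≠ 0 := (map_ne_zero σ.symm).2 ht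
    have h1 := hM (Units.mk0 t ht)
    have h2 : ltU H σ (Units.mk0 t ht) = (H.l (σ.symm t)).map σ := by
      rw [← ltU_complex H σ ht']
      congr 1
      ext
      simp
    have h3 := hc (σ.symm t) ht'
    rw [RingEquiv.apply_symm_apply] at h3
    have h4 : kp κ (M.map (Polynomial.aeval t)) *ᵥ v =
        (t ^ (H.w * n)) • ∑ k ∈ Finset.Icc (-w : ℤ) w, t ^ k • c k := by
      rw [Units.val_mk0] at h1
      rw [h1, h2, kp_smul, Matrix.smul_mulVec, h3, ← hn, ← pow_mul]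
    have h5 := congrFun h4 i
    change Polynomial.eval t _ = Polynomial.eval t _
    have h6 : Polynomial.eval t ((kp κ M *ᵥ (fun i => Polynomial.C (v i))) i) =
        (kp κ (M.map (Polynomial.aeval t)) *ᵥ v) i := by
      rw [Matrix.mulVec, dotProduct, Polynomial.eval_finsetSum, Matrix.mulVec, dotProduct]
      refine Finset.sum_congr rfl fun j _ => ?_
      rw [Polynomial.eval_mul, Polynomial.eval_C, kp_apply, kp_apply, Polynomial.eval_prod]
      rfl
    rw [Polynomial.eval_mul, Polynomial.eval_pow, Polynomial.eval_X, h6, h5,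
      Polynomial.eval_finsetSum, Pi.smul_apply, Finset.sum_apply, smul_eq_mul, Finset.mul_sum,
      Finset.mul_sum]
    refine Finset.sum_congr rfl fun k hk => ?_
    rw [Polynomial.eval_mul, Polynomial.eval_mul, Polynomial.eval_pow, Polynomial.eval_pow,
      Polynomial.eval_X, Polynomial.eval_C, Pi.smul_apply, smul_eq_mul]
    have h7 := hpow (Units.mk0 t ht) k hk
    rw [Units.val_mk0, Units.val_zpow_eq_zpow_val, Units.val_mk0] at h7
    rw [h7, pow_add]
    ring
  -- evaluation at `T`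
  funext i
  have h9 : IsUnit ((T : L) ^ (H.w * n + w)) := T.isUnit.pow _
  apply h9.mul_left_cancel
  have h7 := congrArg (Polynomial.aeval (T : L)) (key i)
  have h6 : Polynomial.aeval (T : L) ((kp κ M *ᵥ (fun i => Polynomial.C (v i))) i) =
      (T : L) ^ (H.w * n) * (kp κ (ltU H σ T) *ᵥ (fun i => algebraMap ℂ L (v i))) i := by
    have h8 : Polynomial.aeval (T : L) ((kp κ M *ᵥ (fun i => Polynomial.C (v i))) i) =
        (kp κ (M.map (Polynomial.aeval (T : L))) *ᵥ (fun i => algebraMap ℂ L (v i))) i := by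
      rw [Matrix.mulVec, dotProduct, map_sum, Matrix.mulVec, dotProduct]
      refine Finset.sum_congr rfl fun j _ => ?_
      rw [map_mul, Polynomial.aeval_C, kp_apply, kp_apply, map_prod]
      rfl
    rw [h8, hM T, kp_smul, Matrix.smul_mulVec, ← hn, ← pow_mul, Pi.smul_apply, smul_eq_mul]
  rw [map_mul, map_pow, Polynomial.aeval_X, h6, map_sum, ← mul_assoc, ← pow_add,
    add_comm w] at h7
  rw [h7, Finset.sum_apply, Finset.mul_sum]
  refine Finset.sum_congr rfl fun k hk => ?_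
  rw [map_mul, map_mul, map_pow, map_pow, Polynomial.aeval_X, Polynomial.aeval_C, hpow T k hk,
    Pi.smul_apply, smul_eq_mul, mul_assoc]

end Pool.Agent.K6.H94.FG
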