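import Pool.Agent.K6.H94.FG.Geo

/-!
# Products of the powers of a variety with varieties of bounded level

Classes in a Hodge substructure of bounded level of `H(Z × X ^ n)` factor through `H(Z × X ^ N)`.
-/

set_option autoImplicit false
set_option linter.unusedSectionVars false

open CategoryTheory AlgebraicGeometry TensorProduct

universe u

namespace Pool.Agent.K6.H94.FG.Geo

open Module
open Pool.Agent.H914 Pool.Agent.H914.VarClass Pool.Agent.H914.VarClass.Obj
  Pool.Agent.H914.WeilCohomology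
open Pool.Agent.Y133.Half Pool.Agent.Y121.AH Pool.Agent.N996.BP Pool.Agent.N996.BP.Geo

variable {k : Type u} [Field k] {𝒱 : VarClass k} {ops : CycleOps 𝒱}

/-- The composition of a class on `A × B` with a class on `B × C`. -/
noncomputable def cmp {W : WeilCohomology.{u, 0} ops} {A B C : 𝒱.Obj} (x : W.H (A.prod B))
    (d : W.H (B.prod C)) : W.H (A.prod C) :=
  W.push (p13 A B C) (W.map (p12 A B C) x * W.map (p23 A B C) d)

variable {T : HodgeTheory ops} {A B C X Z : 𝒱.Obj}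

variable (T) in
/-- The level of the cohomology of `Z` is at most `w`. -/
def LevLE (Z : 𝒱.Obj) (w : ℕ) : Prop := ∀ p q : ℤ, ∀ x ∈ T.pq Z p q, x ≠ 0 → |p - q| ≤ w

lemma Wts.zero {Y : 𝒱.Obj} {w : ℕ} : Wts T Y w 0 :=
  ⟨fun _ => 0, fun t _ => by rw [map_zero]; simp⟩

lemma Wts.add {Y : 𝒱.Obj} {w : ℕ} {x y : (CW T).H Y} (hx : Wts T Y w x) (hy : Wts T Y w y) :
    Wts T Y w (x + y) := by
  obtain ⟨c, hc⟩ := hx
  obtain ⟨d, hd⟩ := hy
  refine ⟨fun k => c k + d k, fun t ht => ?_⟩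
  rw [map_add, hc t ht, hd t ht, ← Finset.sum_add_distrib]
  exact Finset.sum_congr rfl fun k _ => (smul_add _ _ _).symm

lemma Wts.smul {Y : 𝒱.Obj} {w : ℕ} {x : (CW T).H Y} (hx : Wts T Y w x) (r : (CW T).K) :
    Wts T Y w (r • x) := by
  obtain ⟨c, hc⟩ := hx
  refine ⟨fun k => r • c k, fun t ht => ?_⟩
  rw [map_smul, hc t ht, Finset.smul_sum]
  exact Finset.sum_congr rfl fun k _ => smul_comm _ _ _

lemma wts_of_lev {w : ℕ} (h : LevLE T Z w) (x : (CW T).H Z) : Wts T Z w x := by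
  refine pq_ind T (p := fun x => Wts T Z w x) ?_ (fun _ _ => Wts.add) Wts.zero x
  intro p q x hx
  by_cases h0 : x = 0
  · rw [h0]; exact Wts.zero
  · have h1 := h p q x hx h0
    rw [abs_le] at h1
    refine ⟨fun k => if k = p - q then x else 0, fun t _ => ?_⟩
    rw [lop_pq hx, Finset.sum_eq_single (p - q)]
    · simp only [if_true]
    · intro j _ hj
      simp only [hj, if_false, smul_zero]
    · intro hn
      exact absurd (Finset.mem_Icc.2 h1) hn

lemma Wts.corr {v w : ℕ} {c : (CW T).H (A.prod B)} {x : (CW T).H A} (hc : Wts T (A.prod B) v c)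
    (hx : Wts T A w x) : Wts T B (v + w) ((CW T).corr c x) := by
  classical
  obtain ⟨f, hf⟩ := hc
  obtain ⟨g, hg⟩ := hx
  refine ⟨fun m => ∑ j ∈ Finset.Icc (-v : ℤ) v, ∑ k ∈ Finset.Icc (-w : ℤ) w,
    if j + k = m then (CW T).corr (f j) (g k) else 0, fun t ht => ?_⟩
  have h1 : ∀ (s : Finset ℤ) (r : ℤ → (CW T).K) (y : (CW T).H A),
      (CW T).corr (∑ j ∈ s, r j • f j) y = ∑ j ∈ s, r j • (CW T).corr (f j) y := by
    intro s r y
    have h2 : ∀ z, (CW T).corr z = corrL (CW T) A B z := fun z => rfl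
    rw [h2, map_sum, LinearMap.sum_apply]
    refine Finset.sum_congr rfl fun j _ => ?_
    rw [map_smul, LinearMap.smul_apply]
    rfl
  rw [lop_corr ht, hf t ht, hg t ht, h1]
  have h3 : ∀ j ∈ Finset.Icc (-v : ℤ) v, (cc T t) ^ j • (CW T).corr (f j)
      (∑ k ∈ Finset.Icc (-w : ℤ) w, (cc T t) ^ k • g k) = ∑ m ∈ Finset.Icc (-(v + w : ℕ) : ℤ)
        ((v + w : ℕ) : ℤ), (cc T t) ^ m • ∑ k ∈ Finset.Icc (-w : ℤ) w,
          if j + k = m then (CW T).corr (f j) (g k) else 0 := by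
    intro j hj
    rw [map_sum, Finset.smul_sum]
    have h4 : ∀ m ∈ Finset.Icc (-(v + w : ℕ) : ℤ) ((v + w : ℕ) : ℤ), (cc T t) ^ m •
        (∑ k ∈ Finset.Icc (-w : ℤ) w, if j + k = m then (CW T).corr (f j) (g k) else 0) =
        ∑ k ∈ Finset.Icc (-w : ℤ) w, (cc T t) ^ m •
          (if j + k = m then (CW T).corr (f j) (g k) else 0) := fun m _ => Finset.smul_sum
    rw [Finset.sum_congr rfl h4, Finset.sum_comm]
    refine Finset.sum_congr rfl fun k hk => ?_
    rw [Finset.mem_Icc] at hj hk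
    rw [map_smul, smul_smul, ← zpow_add₀ (cc_ne T ht), Finset.sum_eq_single (j + k)]
    · rw [if_pos rfl]
    · intro m _ hm
      rw [if_neg (Ne.symm hm), smul_zero]
    · intro hn
      exfalso
      apply hn
      rw [Finset.mem_Icc]
      push_cast
      omega
  rw [Finset.sum_congr rfl h3, Finset.sum_comm]
  refine Finset.sum_congr rfl fun m _ => ?_
  rw [Finset.smul_sum]

/-- The classes `corr x ζ`. -/
def cont (M : Submodule T.W.K (T.W.H (A.prod B))) : Submodule T.W.K (T.W.H B) :=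
  Submodule.span T.W.K {y | ∃ x ∈ M, ∃ ζ, y = T.W.corr x ζ}

lemma em_span_top (x : (CW T).H A) :
    x ∈ Submodule.span (CW T).K {y | ∃ u : T.W.H A, y = em T.W ℂ u} := by
  refine tmul_ind (p := fun x : (CW T).H A =>
    x ∈ Submodule.span (CW T).K {y | ∃ u : T.W.H A, y = em T.W ℂ u}) (Submodule.zero_mem _)
      (fun _ _ => Submodule.add_mem _) ?_ x
  intro l a
  rw [tmul_eq]
  exact Submodule.smul_mem _ _ (Submodule.subset_span ⟨a, rfl⟩)

lemma stab_cont {M : Submodule T.W.K (T.W.H (A.prod B))} (h : Stab T (A.prod B) M) :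
    Stab T B (cont M) := by
  intro y hy t ht
  rw [cont] at hy
  induction hy using Submodule.span_induction with
  | mem y hy =>
    obtain ⟨x, hx, ζ, rfl⟩ := hy
    rw [← em_corr, lop_corr ht]
    have h1 := h x hx t ht
    have h2 := em_span_top (T := T) (lop T t A (em T.W ℂ ζ))
    generalize lop T t (A.prod B) (em T.W ℂ x) = X' at h1
    generalize lop T t A (em T.W ℂ ζ) = Y' at h2
    induction h1 using Submodule.span_induction with
    | mem X' hX' =>
      obtain ⟨u, hu, rfl⟩ := hX'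
      induction h2 using Submodule.span_induction with
      | mem Y' hY' =>
        obtain ⟨ζ', rfl⟩ := hY'
        rw [em_corr]
        exact Submodule.subset_span ⟨_, Submodule.subset_span ⟨u, hu, ζ', rfl⟩, rfl⟩
      | zero => rw [map_zero]; exact Submodule.zero_mem _
      | add a b _ _ ha hb => rw [map_add]; exact Submodule.add_mem _ ha hb
      | smul r a _ ha => rw [map_smul]; exact Submodule.smul_mem _ _ ha
    | zero => rw [corr_zero, LinearMap.zero_apply]; exact Submodule.zero_mem _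
    | add a b _ _ ha hb =>
      rw [corr_add, LinearMap.add_apply]; exact Submodule.add_mem _ ha hb
    | smul r a _ ha =>
      rw [corr_smul, LinearMap.smul_apply]; exact Submodule.smul_mem _ _ ha
  | zero => rw [em_zero, map_zero]; exact Submodule.zero_mem _
  | add a b _ _ ha hb => rw [em_add, map_add]; exact Submodule.add_mem _ ha hb
  | smul r a _ ha => rw [em_smul, map_smul]; exact Submodule.smul_mem _ _ ha

lemma wts_cont {v w : ℕ} {M : Submodule T.W.K (T.W.H (A.prod B))}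
    (h : ∀ x ∈ M, Wts T (A.prod B) v (em T.W ℂ x)) (hA : LevLE T A w) :
    ∀ y ∈ cont M, Wts T B (v + w) (em T.W ℂ y) := by
  intro y hy
  rw [cont] at hy
  induction hy using Submodule.span_induction with
  | mem y hy =>
    obtain ⟨x, hx, ζ, rfl⟩ := hy
    rw [← em_corr]
    exact (h x hx).corr (wts_of_lev hA _)
  | zero => rw [em_zero]; exact Wts.zero
  | add a b _ _ ha hb => rw [em_add]; exact ha.add hb
  | smul r a _ ha => rw [em_smul]; exact ha.smul _

/-- **Classes on `Z × X ^ n` in Hodge substructures of bounded level factor through `Z × X ^ N`.** -/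
theorem cmp_id {ψ : LinearMap.BilinForm T.W.K (T.W.H X)}
    (hψ : IsPHS (tauT T) (Fx T X) ψ X.dim) (v w : ℕ) : ∃ N₀ : ℕ, ∀ N, N₀ ≤ N → ∀ n, N ≤ n →
    ∃ (r : ℕ) (α : Fin r → T.W.H ((pw X N).prod (pw X n)))
      (β : Fin r → T.W.H ((pw X n).prod (pw X N))),
      (∀ i, α i ∈ (hodgePred T).sys.C ((pw X N).prod (pw X n))) ∧
      (∀ i, β i ∈ (hodgePred T).sys.C ((pw X n).prod (pw X N))) ∧
      ∀ Z : 𝒱.Obj, LevLE T Z w → ∀ M : Submodule T.W.K (T.W.H (Z.prod (pw X n))),
        Stab T (Z.prod (pw X n)) M → (∀ x ∈ M, Wts T (Z.prod (pw X n)) v (em T.W ℂ x)) →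
        ∀ x ∈ M, ∑ i, cmp (cmp x (β i)) (α i) = x := by
  obtain ⟨N₀, h⟩ := op_id hψ (v + w)
  refine ⟨N₀, fun N hN n hn => ?_⟩
  obtain ⟨r, a, b, ha, hb, hab⟩ := h N hN n hn
  choose α hα hα' using fun i => Sys.mem_Op.1 (ha i)
  choose β hβ hβ' using fun i => Sys.mem_Op.1 (hb i)
  refine ⟨r, α, β, hα, hβ, fun Z hZ M h1 h2 x hx => ?_⟩
  apply corr_eq_iff (W := T.W)
  apply LinearMap.ext
  intro ζ
  have h3 : T.W.corr (∑ i, cmp (cmp x (β i)) (α i)) = ∑ i, T.W.corr (cmp (cmp x (β i)) (α i)) := by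
    have h4 : ∀ z, T.W.corr z = corrL T.W Z (pw X n) z := fun z => rfl
    rw [h4, map_sum]
    rfl
  have h5 : ∀ i, T.W.corr (cmp (cmp x (β i)) (α i)) = a i ∘ₗ b i ∘ₗ T.W.corr x := by
    intro i
    rw [cmp, corr_comp' _ ((hodgePred T).sys.even (hα i)), cmp,
      corr_comp' _ ((hodgePred T).sys.even (hβ i)), hα', hβ']
  rw [h3, LinearMap.sum_apply]
  have h6 : ∀ i, T.W.corr (cmp (cmp x (β i)) (α i)) ζ = a i (b i (T.W.corr x ζ)) := fun i => by
    rw [h5]; rfl
  rw [Finset.sum_congr rfl fun i _ => h6 i]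
  exact hab (cont M) (stab_cont h1) (wts_cont h2 hZ) _ (Submodule.subset_span ⟨x, hx, ζ, rfl⟩)

/-! ### Systems of classes -/

/-- Classes on the products of two powers. -/
lemma pw_prod {S S' : Sys T.W} (h : ∀ m, S'.C (pw X m) ≤ S.C (pw X m)) (m n : ℕ) :
    S'.C ((pw X m).prod (pw X n)) ≤ S.C ((pw X m).prod (pw X n)) := by
  intro c hc
  have h1 : c = T.W.map (pwAdd X m n).hom (T.W.map (pwAdd X m n).inv c) := by
    rw [← T.W.map_comp, Iso.hom_inv_id, T.W.map_id]
  rw [h1]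
  exact S.map _ (h _ (S'.map _ hc))

/-- Hodge classes in `S` on a product: those on the factor. -/
lemma factor {S : Sys T.W} (Z P : 𝒱.Obj) [Nontrivial (T.W.H Z)]
    (h : (hodgePred T).sys.C (Z.prod P) ≤ S.C (Z.prod P)) :
    (hodgePred T).sys.C P ≤ S.C P := by
  intro c hc
  obtain ⟨l, hl, hl1⟩ := exists_tr_hodge T Z
  have h1 : l ∈ (hodgePred T).sys.C Z := ClassPred.sp_of (Q := hodgePred T) hl
  have h2 := S.push (snd Z P) (h ((hodgePred T).sys.mul ((hodgePred T).sys.map (fst Z P) h1)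
    ((hodgePred T).sys.map (snd Z P) hc)))
  rwa [T.W.push_snd, hl1, one_smul] at h2

/-- The projection of a product to a product with a smaller power. -/
noncomputable def dn (Z X : 𝒱.Obj) {n m : ℕ} (h : n ≤ m) : Z.prod (pw X m) ⟶ Z.prod (pw X n) :=
  Obj.lift (fst _ _) (snd _ _ ≫ down X h)

/-- A section of the projection. -/
noncomputable def upp (Z X : 𝒱.Obj) (n m : ℕ) : Z.prod (pw X n) ⟶ Z.prod (pw X m) :=
  Obj.lift (fst _ _) (snd _ _ ≫ up X n m)

lemma upp_dn (Z X : 𝒱.Obj) {n m : ℕ} (h : n ≤ m) : upp Z X n m ≫ dn Z X h = 𝟙 _ := by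
  apply prod_hom_ext
  · rw [Category.assoc, dn, lift_fst, upp, lift_fst, Category.id_comp]
  · rw [Category.assoc, dn, lift_snd, upp, lift_snd_assoc, Category.assoc, up_down,
      Category.comp_id, Category.id_comp]

lemma map_upp_dn (Z X : 𝒱.Obj) {n m : ℕ} (h : n ≤ m) (c : T.W.H (Z.prod (pw X n))) :
    T.W.map (upp Z X n m) (T.W.map (dn Z X h) c) = c := by
  rw [← T.W.map_comp, upp_dn, T.W.map_id]

/-- **Hodge classes on the products of the powers of `X` with all varieties of bounded level.** -/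
theorem sys_main {ψ : LinearMap.BilinForm T.W.K (T.W.H X)}
    (hψ : IsPHS (tauT T) (Fx T X) ψ X.dim) (w : ℕ) : ∃ N : ℕ, ∀ Z : 𝒱.Obj, LevLE T Z w →
    ∀ S : Sys T.W, (∀ Y, S.C Y ≤ (hodgePred T).sys.C Y) →
      (hodgePred T).sys.C (Z.prod (pw X N)) ≤ S.C (Z.prod (pw X N)) →
      ∀ n, (hodgePred T).sys.C (Z.prod (pw X n)) ≤ S.C (Z.prod (pw X n)) := by
  obtain ⟨N₀, h⟩ := cmp_id hψ 0 w
  refine ⟨max N₀ (expo (finrank T.W.K (T.W.H X)) - 1), fun Z hZ S hS hN n => ?_⟩
  obtain ⟨N, hNdef⟩ : ∃ N, N = max N₀ (expo (finrank T.W.K (T.W.H X)) - 1) := ⟨_, rfl⟩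
  rw [← hNdef] at hN
  rcases subsingleton_or_nontrivial (T.W.H Z) with hs | hs
  · intro c _
    have h1 : Subsingleton (T.W.H (Z.prod (pw X n))) := by
      have h2 : finrank T.W.K (T.W.H (Z.prod (pw X n))) = 0 := by
        rw [Pool.Agent.Y133.Half.finrank_prod, finrank_zero_of_subsingleton, zero_mul]
      exact finrank_zero_iff.1 h2
    rw [Subsingleton.elim c 0]
    exact Submodule.zero_mem _
  have h1 := factor (S := S) Z (pw X N) hN
  have h2 : ∀ m, (hodgePred T).sys.C (pw X m) ≤ S.C (pw X m) :=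
    bounded hψ S hS (mono_pw (S' := (hodgePred T).sys)
      (show expo (finrank T.W.K (T.W.H X)) - 1 ≤ N by rw [hNdef]; exact le_max_right _ _) h1)
  by_cases hn : N ≤ n
  · obtain ⟨r, α, β, hα, hβ, hid⟩ := h N (by rw [hNdef]; exact le_max_left _ _) n hn
    intro c hc
    rw [← hid Z hZ ((hodgePred T).sys.C (Z.prod (pw X n)))
      (fun x hx t ht => by
        rw [inv_iff.2 hx t ht]
        exact Submodule.subset_span ⟨x, hx, rfl⟩)
      (fun x hx => ⟨fun _ => em T.W ℂ x, fun t ht => by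
        rw [inv_iff.2 hx t ht]
        simp⟩) c hc]
    refine Submodule.sum_mem _ fun i _ => ?_
    exact Sys.comp_mem (hN (Sys.comp_mem hc (hβ i))) (pw_prod h2 _ _ (hα i))
  · intro c hc
    rw [← map_upp_dn Z X (show n ≤ N by omega) c]
    exact S.map _ (hN ((hodgePred T).sys.map _ hc))

end Pool.Agent.K6.H94.FG.Geo
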