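import Pool.Agent.K6.H94.FG.GDefs
import Pool.Agent.K6.H94.FG.Sys
import Pool.Agent.Y133.Half.TateSys

/-!
# The coniveau filtration
-/

set_option autoImplicit false
set_option linter.unusedSectionVars false

open CategoryTheory AlgebraicGeometry TensorProduct

universe u

namespace Pool.Agent.K6.H94.FG.Geo

open Module
open Pool.Agent.H914 Pool.Agent.H914.VarClass Pool.Agent.H914.VarClass.Obj
  Pool.Agent.H914.WeilCohomology
open Pool.Agent.Y133.Half
open Pool.Agent.H281R3.HT

variable {k : Type u} [Field k] {𝒱 : VarClass k} {ops : CycleOps 𝒱}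
  {W : WeilCohomology.{u, 0} ops} {X Y Z A B C : 𝒱.Obj}

/-- The coniveau filtration. -/
noncomputable def cnv (W : WeilCohomology.{u, 0} ops) (X : 𝒱.Obj) (j : ℕ) : Submodule W.K (W.H X) :=
  Submodule.span W.K {x | ∃ (Y : 𝒱.Obj) (p : ℕ) (z : (Y.prod X).Cycles) (y : W.H Y),
    Y.dim + j ≤ p ∧ (Y.prod X).IsCyc p z ∧ W.corr (W.cl (Y.prod X) z) y = x}

/-- The product of the identity with a morphism. -/
noncomputable def idp (Z : 𝒱.Obj) (f : X ⟶ Y) : Z.prod X ⟶ Z.prod Y :=
  Obj.lift (fst _ _) (snd _ _ ≫ f)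

lemma idp_fst (f : X ⟶ Y) : idp Z f ≫ fst _ _ = fst _ _ := by rw [idp, lift_fst]

lemma idp_snd (f : X ⟶ Y) : idp Z f ≫ snd _ _ = snd _ _ ≫ f := by rw [idp, lift_snd]

/-- Base change. -/
lemma map_push_snd (f : X ⟶ Y) (c : W.H (Z.prod Y)) :
    W.map f (W.push (snd Z Y) c) = W.push (snd Z X) (W.map (idp Z f) c) := by
  refine W.kunneth_induction (p := fun c => W.map f (W.push (snd Z Y) c) =
    W.push (snd Z X) (W.map (idp Z f) c)) ?_ ?_ c
  · intro a b ha hb; simp only [map_add, ha, hb]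
  · intro i j a _ b _
    rw [W.push_snd, map_smul, map_mul, ← W.map_comp, ← W.map_comp, idp_fst, idp_snd, W.map_comp,
      W.push_snd]

lemma niv_of {j p : ℕ} {z : (Y.prod X).Cycles} (hp : Y.dim + j ≤ p) (hz : (Y.prod X).IsCyc p z)
    (y : W.H Y) : W.corr (W.cl _ z) y ∈ cnv W X j :=
  Submodule.subset_span ⟨Y, p, z, y, hp, hz, rfl⟩

lemma niv_anti {i j : ℕ} (h : i ≤ j) : cnv W X j ≤ cnv W X i :=
  Submodule.span_mono fun _ ⟨Y, p, z, y, hp, hz, e⟩ => ⟨Y, p, z, y, by omega, hz, e⟩

lemma niv_zero (x : W.H X) : x ∈ cnv W X 0 := by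
  have h1 : W.corr (W.cl _ (ops.push (diag X) X.V.fundCycle)) x = x := by
    rw [W.cl_push, W.cl_fund, W.corr_diag, one_mul]
  rw [← h1]
  refine niv_of (p := X.dim) (by omega) ?_ x
  exact ops.push_mem (diag X) X.V.fundCycle_mem (by rw [dim_prod]; omega)

lemma niv_map (f : X ⟶ Y) {j : ℕ} {x : W.H Y} (hx : x ∈ cnv W Y j) :
    W.map f x ∈ cnv W X j := by
  rw [cnv] at hx
  induction hx using Submodule.span_induction with
  | mem x hx =>
    obtain ⟨Y', p, z, y, hp, hz, rfl⟩ := hx
    have h1 : W.map f (W.corr (W.cl _ z) y) = W.corr (W.cl _ (ops.pull (idp Y' f) z)) y := by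
      rw [corr_apply, corr_apply, map_push_snd, map_mul, ← W.map_comp, idp_fst, W.cl_pull]
    rw [h1]
    exact niv_of hp (ops.pull_mem _ hz) y
  | zero => rw [map_zero]; exact Submodule.zero_mem _
  | add a b _ _ ha hb => rw [map_add]; exact Submodule.add_mem _ ha hb
  | smul r a _ ha => rw [map_smul]; exact Submodule.smul_mem _ _ ha

lemma niv_mul {j c m : ℕ} {x : W.H X} (hx : x ∈ cnv W X j) {z' : X.Cycles}
    (hz' : X.IsCyc c z') (h : m ≤ j + c) : x * W.cl X z' ∈ cnv W X m := by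
  rw [cnv] at hx
  induction hx using Submodule.span_induction with
  | mem x hx =>
    obtain ⟨Y, p, z, y, hp, hz, rfl⟩ := hx
    have h1 : W.corr (W.cl _ z) y * W.cl X z' =
        W.corr (W.cl _ (ops.mul (ops.pull (snd Y X) z') z)) y := by
      rw [← W.even_comm (W.cl_mem hz'), corr_apply, corr_apply, W.mul_push _ (W.cl_mem hz'),
        W.cl_mul, W.cl_pull, mul_assoc]
    rw [h1]
    exact niv_of (by omega) (ops.mul_mem (ops.pull_mem _ hz') hz) y
  | zero => rw [zero_mul]; exact Submodule.zero_mem _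
  | add a b _ _ ha hb => rw [add_mul]; exact Submodule.add_mem _ ha hb
  | smul r a _ ha => rw [smul_mul_assoc]; exact Submodule.smul_mem _ _ ha

lemma niv_push (f : X ⟶ Y) {j m : ℕ} {x : W.H X} (hx : x ∈ cnv W X j)
    (h : X.dim + m ≤ j + Y.dim) : W.push f x ∈ cnv W Y m := by
  rw [cnv] at hx
  induction hx using Submodule.span_induction with
  | mem x hx =>
    obtain ⟨Y', p, z, y, hp, hz, rfl⟩ := hx
    have h1 : W.push f (W.corr (W.cl _ z) y) = W.corr (W.push (idp Y' f) (W.cl _ z)) y := by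
      rw [corr_apply, corr_apply, ← W.push_comp, ← idp_snd, W.push_comp, ← W.push_mul,
        ← W.map_comp, idp_fst]
    rw [h1, ← W.cl_push]
    refine niv_of (p := p + Y.dim - X.dim) (by omega) (ops.push_mem _ hz ?_) y
    rw [dim_prod, dim_prod]
    omega
  | zero => rw [map_zero]; exact Submodule.zero_mem _
  | add a b _ _ ha hb => rw [map_add]; exact Submodule.add_mem _ ha hb
  | smul r a _ ha => rw [map_smul]; exact Submodule.smul_mem _ _ ha

/-- The action of algebraic correspondences on the coniveau. -/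
lemma niv_corr {j c m : ℕ} {z : (X.prod Y).Cycles} (hz : (X.prod Y).IsCyc c z) {x : W.H X}
    (hx : x ∈ cnv W X j) (h : X.dim + m ≤ j + c) :
    W.corr (W.cl _ z) x ∈ cnv W Y m := by
  rw [corr_apply, W.even_comm (W.cl_mem hz)]
  refine niv_push _ (niv_mul (niv_map _ hx) hz le_rfl) ?_
  rw [dim_prod]
  omega

lemma niv_cmp {j c m : ℕ} {z : (B.prod C).Cycles} (hz : (B.prod C).IsCyc c z)
    {x : W.H (A.prod B)} (hx : x ∈ cnv W (A.prod B) j) (h : B.dim + m ≤ j + c) :
    cmp x (W.cl _ z) ∈ cnv W (A.prod C) m := by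
  rw [cmp, ← W.cl_pull]
  refine niv_push _ (niv_mul (niv_map _ hx) (ops.pull_mem _ hz) le_rfl) ?_
  simp only [dim_prod]
  omega

lemma proj_grZ {X : 𝒱.Obj} {i : ℤ} {a : W.H X} (ha : a ∈ grZ (W.gr X) i) (m : ℕ) :
    proj (W.isInternal X) m a = if (m : ℤ) = i then a else 0 := by
  by_cases h0 : 0 ≤ i
  · lift i to ℕ using h0
    rw [grZ_natCast] at ha
    split_ifs with h1
    · obtain rfl : m = i := by exact_mod_cast h1
      exact proj_same (W.isInternal X) ha
    · exact proj_ne (W.isInternal X) ha (fun h2 => h1 (by rw [h2]))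
  · rw [grZ_of_neg (by omega)] at ha
    rw [(Submodule.mem_bot _).1 ha, map_zero, ite_self]

lemma cl_algSpan {p : ℕ} {z : X.Cycles} (hz : X.IsCyc p z) : W.cl X z ∈ (algSys W).C X :=
  Submodule.subset_span (Set.mem_iUnion.2 ⟨p, z, hz, rfl⟩)

/-- The classes of coniveau `j` and degree `2 j` are algebraic. -/
lemma niv_alg {j : ℕ} {x : W.H X} (hx : x ∈ cnv W X j) (hx2 : x ∈ W.gr X (2 * j)) :
    x ∈ (algSys W).C X := by
  have key : ∀ x ∈ cnv W X j, proj (W.isInternal X) (2 * j) x ∈ (algSys W).C X := by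
    intro x hx
    rw [cnv] at hx
    induction hx using Submodule.span_induction with
    | mem x hx =>
      obtain ⟨Y, p, z, y, hp, hz, rfl⟩ := hx
      refine gr_induction (W.isInternal Y) (p := fun y => proj (W.isInternal X) (2 * j)
        (W.corr (W.cl _ z) y) ∈ (algSys W).C X) ?_ ?_ y
      · intro d y hy
        have h1 := W.push_mem (snd Y X) (W.mul_mem (W.cl_mem hz) (W.map_mem (fst Y X) hy))
        rw [corr_apply, proj_grZ h1]
        split_ifs with h2
        · have hd : d = 0 := by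
            rw [dim_prod] at h2
            push_cast at h2
            omega
          have hpj : p = Y.dim + j := by
            rw [dim_prod] at h2
            push_cast at h2
            omega
          subst hd
          rw [W.gr_zero] at hy
          obtain ⟨r, rfl⟩ := Submodule.mem_span_singleton.1 hy
          rw [map_smul, map_one, mul_smul_comm, mul_one, map_smul, ← W.cl_push]
          refine Submodule.smul_mem _ _ (cl_algSpan (p := j) (ops.push_mem _ hz ?_))
          rw [dim_prod]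
          omega
        · exact Submodule.zero_mem _
      · intro a b ha hb
        rw [map_add, map_add]
        exact Submodule.add_mem _ ha hb
    | zero => rw [map_zero]; exact Submodule.zero_mem _
    | add a b _ _ ha hb => rw [map_add]; exact Submodule.add_mem _ ha hb
    | smul r a _ ha => rw [map_smul]; exact Submodule.smul_mem _ _ ha
  have h1 := key x hx
  rwa [proj_same (W.isInternal X) hx2] at h1

/-- The composition with a fixed class. -/
noncomputable def cmpR (W : WeilCohomology.{u, 0} ops) (A : 𝒱.Obj) {B C : 𝒱.Obj}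
    (d : W.H (B.prod C)) : W.H (A.prod B) →ₗ[W.K] W.H (A.prod C) :=
  W.push (p13 A B C) ∘ₗ LinearMap.mulRight W.K (W.map (p23 A B C) d) ∘ₗ
    (W.map (p12 A B C)).toLinearMap

lemma cmpR_apply (d : W.H (B.prod C)) (x : W.H (A.prod B)) : cmpR W A d x = cmp x d := rfl

lemma cmp_add (x : W.H (A.prod B)) (d d' : W.H (B.prod C)) :
    cmp x (d + d') = cmp x d + cmp x d' := by
  rw [cmp, map_add, mul_add, map_add]
  rfl

lemma cmp_smul (x : W.H (A.prod B)) (r : W.K) (d : W.H (B.prod C)) :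
    cmp x (r • d) = r • cmp x d := by
  rw [cmp, map_smul, mul_smul_comm, map_smul]
  rfl

lemma cmp_zero (x : W.H (A.prod B)) : cmp x (0 : W.H (B.prod C)) = 0 := by
  rw [cmp, map_zero, mul_zero, map_zero]

lemma zero_cmp (d : W.H (B.prod C)) : cmp (0 : W.H (A.prod B)) d = 0 := by
  rw [← cmpR_apply, map_zero]

lemma add_cmp (x y : W.H (A.prod B)) (d : W.H (B.prod C)) : cmp (x + y) d = cmp x d + cmp y d := by
  rw [← cmpR_apply, map_add]
  rfl

lemma smul_cmp (r : W.K) (x : W.H (A.prod B)) (d : W.H (B.prod C)) :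
    cmp (r • x) d = r • cmp x d := by
  rw [← cmpR_apply, map_smul]
  rfl

/-- The degree of the composition. -/
lemma cmp_gr {i c : ℕ} {x : W.H (A.prod B)} (hx : x ∈ W.gr _ i) {z : (B.prod C).Cycles}
    (hz : (B.prod C).IsCyc c z) :
    cmp x (W.cl _ z) ∈ grZ (W.gr (A.prod C)) (i + 2 * ((c : ℤ) - B.dim)) := by
  have h1 := W.push_mem (p13 A B C) (W.mul_mem (W.map_mem (p12 A B C) hx)
    (W.map_mem (p23 A B C) (W.cl_mem hz)))
  have h2 : ((i + 2 * c : ℕ) : ℤ) + 2 * (((A.prod C).dim : ℤ) - (A.prod (B.prod C)).dim) =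
      (i : ℤ) + 2 * ((c : ℤ) - B.dim) := by
    simp only [dim_prod]
    push_cast
    ring
  rw [h2] at h1
  exact h1

lemma corr_gr {i c : ℕ} {x : W.H X} (hx : x ∈ W.gr _ i) {z : (X.prod Y).Cycles}
    (hz : (X.prod Y).IsCyc c z) :
    W.corr (W.cl _ z) x ∈ grZ (W.gr Y) (i + 2 * ((c : ℤ) - X.dim)) := by
  have h1 := W.push_mem (snd X Y) (W.mul_mem (W.cl_mem hz) (W.map_mem (fst X Y) hx))
  have h2 : ((2 * c + i : ℕ) : ℤ) + 2 * ((Y.dim : ℤ) - (X.prod Y).dim) =
      (i : ℤ) + 2 * ((c : ℤ) - X.dim) := by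
    simp only [dim_prod]
    push_cast
    ring
  rw [h2] at h1
  exact h1

end Pool.Agent.K6.H94.FG.Geo
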